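import Mathlib
import Pool.Agent.N275.QD.Ana

/-!
# Integrability and monotonicity of the moments and of the diffraction coefficient
-/

set_option autoImplicit false

namespace Pool.Agent.N670.QD

open MeasureTheory Set Filter Topology
open Pool.Agent.N275.QD
open scoped Real

lemma den_pos (α μ : ℝ) (hα : α < π / 2) (hμ : 0 < μ) : 0 < Real.sinh ((π - α) * μ) := by
  have := Real.pi_pos
  exact Real.sinh_pos_iff.mpr (mul_pos (by linarith) hμ)

lemma Rf_pos (α μ : ℝ) (h0 : 0 < α) (hα : α < π / 2) (hμ : 0 < μ) : 0 < Rf α μ :=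
  div_pos (Real.sinh_pos_iff.mpr (mul_pos h0 hμ)) (den_pos α μ hα hμ)

lemma Rf_le (α μ : ℝ) (hα : α < π / 2) (hμ : 0 < μ) :
    Rf α μ ≤ Real.exp (-((π - 2 * α) * μ)) := by
  unfold Rf
  rw [div_le_iff₀ (den_pos α μ hα hμ), Real.sinh_eq, Real.sinh_eq, mul_div_assoc',
    mul_sub, ← Real.exp_add, ← Real.exp_add]
  have h1 : Real.exp (-((π - 2 * α) * μ) + (π - α) * μ) = Real.exp (α * μ) := by
    congr 1; ring
  have h2 : Real.exp (-((π - 2 * α) * μ) + -((π - α) * μ)) ≤ Real.exp (-(α * μ)) := by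
    apply Real.exp_le_exp.mpr
    have := Real.pi_pos
    nlinarith
  rw [h1]
  linarith

lemma Rf_ge (α μ : ℝ) (h0 : π / 4 ≤ α) (hα : α < π / 2) (hμ : 1 ≤ μ) :
    1 / 2 * Real.exp (-((π - 2 * α) * μ)) ≤ Rf α μ := by
  have hpi := Real.pi_gt_three
  have hμ0 : 0 < μ := by linarith
  unfold Rf
  rw [le_div_iff₀ (den_pos α μ hα hμ0)]
  have h3 : Real.sinh ((π - α) * μ) ≤ Real.exp ((π - α) * μ) / 2 := by
    rw [Real.sinh_eq]
    have := Real.exp_pos (-((π - α) * μ))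
    linarith
  have h4 : 1 / 2 * Real.exp (-((π - 2 * α) * μ)) * Real.sinh ((π - α) * μ) ≤
      1 / 4 * Real.exp (α * μ) := by
    have h5 : Real.exp (-((π - 2 * α) * μ)) * Real.exp ((π - α) * μ) = Real.exp (α * μ) := by
      rw [← Real.exp_add]; congr 1; ring
    have h6 := mul_le_mul_of_nonneg_left h3 (Real.exp_pos (-((π - 2 * α) * μ))).le
    have h7 : Real.exp (-((π - 2 * α) * μ)) * (Real.exp ((π - α) * μ) / 2) =
      Real.exp (α * μ) / 2 := by rw [← h5]; ring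
    linarith
  refine h4.trans ?_
  rw [Real.sinh_eq]
  have h8 : Real.exp (-(α * μ)) ≤ 1 / 2 * Real.exp (α * μ) := by
    have h9 : (2 : ℝ) ≤ Real.exp (2 * (α * μ)) := by
      have h10 := Real.add_one_le_exp (2 * (α * μ))
      have h11 : 3 / 4 ≤ α * μ := by nlinarith
      linarith
    have h12 : Real.exp (α * μ) = Real.exp (2 * (α * μ)) * Real.exp (-(α * μ)) := by
      rw [← Real.exp_add]; congr 1; ring
    have h13 := Real.exp_pos (-(α * μ))
    rw [h12]
    nlinarith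
  linarith

lemma Rf_cont (α : ℝ) (hα : α < π / 2) : ContinuousOn (fun μ => Rf α μ) (Ioi 0) := by
  unfold Rf
  refine ContinuousOn.div (by fun_prop) (by fun_prop) fun μ hμ => (den_pos α μ hα hμ).ne'

lemma int_bound (k : ℕ) (c : ℝ) (hc : 0 < c) :
    IntegrableOn (fun μ : ℝ => μ ^ k * Real.exp (-(c * μ))) (Ioi 0) := by
  have h := integrableOn_rpow_mul_exp_neg_mul_rpow (s := (k : ℝ)) (p := 1) (b := c)
    (by have : (0 : ℝ) ≤ k := Nat.cast_nonneg k
        linarith) one_pos hc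
  refine h.congr_fun (fun μ _ => ?_) measurableSet_Ioi
  simp only [Real.rpow_natCast, Real.rpow_one, neg_mul]

lemma int_main (k : ℕ) (α φ : ℝ) (h0 : 0 < α) (hφ : 0 ≤ φ) (h : φ + α < π / 2) :
    IntegrableOn (fun μ => μ ^ k * Rf α μ * Real.cosh (φ * μ) ^ 2) (Ioi 0) := by
  have hα : α < π / 2 := by linarith
  refine Integrable.mono' (int_bound k (π - 2 * α - 2 * φ) (by linarith)) ?_ ?_
  · refine ContinuousOn.aestronglyMeasurable ?_ measurableSet_Ioi
    exact ((by fun_prop : ContinuousOn (fun μ : ℝ => μ ^ k) (Ioi 0)).mul (Rf_cont α hα)).mul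
      (by fun_prop)
  · refine (ae_restrict_iff' measurableSet_Ioi).mpr (Eventually.of_forall fun μ hμ => ?_)
    have hμ0 : 0 < μ := hμ
    have h1 := Rf_pos α μ h0 hα hμ0
    rw [Real.norm_of_nonneg (by positivity)]
    have h2 : Real.cosh (φ * μ) ≤ Real.exp (φ * μ) := by
      rw [Real.cosh_eq]
      have : Real.exp (-(φ * μ)) ≤ Real.exp (φ * μ) := by
        apply Real.exp_le_exp.mpr
        have : 0 ≤ φ * μ := by positivity
        linarith
      linarith
    have h3 : Real.cosh (φ * μ) ^ 2 ≤ Real.exp (φ * μ) ^ 2 :=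
      pow_le_pow_left₀ (Real.cosh_pos _).le h2 2
    calc μ ^ k * Rf α μ * Real.cosh (φ * μ) ^ 2
        ≤ μ ^ k * Real.exp (-((π - 2 * α) * μ)) * Real.exp (φ * μ) ^ 2 := by
          gcongr
          exact Rf_le α μ hα hμ0
      _ = μ ^ k * Real.exp (-((π - 2 * α - 2 * φ) * μ)) := by
          rw [mul_assoc, ← Real.exp_nat_mul, ← Real.exp_add]
          congr 2
          push_cast
          ring

lemma int_mm (k : ℕ) (α : ℝ) (h0 : 0 < α) (h : α < π / 2) :
    IntegrableOn (fun μ => μ ^ k * Rf α μ) (Ioi 0) := by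
  have := int_main k α 0 h0 le_rfl (by linarith)
  simpa using this

/-- Integrals of positive functions are positive. -/
lemma integral_pos_of (f : ℝ → ℝ) (hf : IntegrableOn f (Ioi 0)) (hp : ∀ μ, 0 < μ → 0 < f μ) :
    0 < ∫ μ in Ioi (0 : ℝ), f μ := by
  rw [setIntegral_pos_iff_support_of_nonneg_ae]
  · have : Function.support f ∩ Ioi 0 = Ioi 0 := by
      apply inter_eq_right.mpr
      intro μ hμ
      exact (hp μ hμ).ne'
    rw [this]
    simp
  · exact (ae_restrict_iff' measurableSet_Ioi).mpr (Eventually.of_forall fun μ hμ => (hp μ hμ).le)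
  · exact hf

lemma integral_lt_of (f g : ℝ → ℝ) (hf : IntegrableOn f (Ioi 0)) (hg : IntegrableOn g (Ioi 0))
    (hp : ∀ μ, 0 < μ → f μ < g μ) :
    ∫ μ in Ioi (0 : ℝ), f μ < ∫ μ in Ioi (0 : ℝ), g μ := by
  have := integral_pos_of (fun μ => g μ - f μ) (hg.sub hf) fun μ hμ => sub_pos.mpr (hp μ hμ)
  rw [integral_sub hg hf] at this
  linarith

lemma Rf_lt (α β μ : ℝ) (h0 : 0 < α) (hαβ : α < β) (hβ : β < π / 2) (hμ : 0 < μ) :
    Rf α μ < Rf β μ := by
  unfold Rf
  apply div_lt_div₀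
  · exact Real.sinh_lt_sinh.mpr (by nlinarith)
  · exact Real.sinh_le_sinh.mpr (by nlinarith)
  · exact (Real.sinh_pos_iff.mpr (mul_pos (by linarith) hμ)).le
  · exact den_pos β μ hβ hμ

lemma mono2 : StrictMonoOn (mm 2) (Ioo 0 (π / 2)) := by
  intro α hα β hβ hαβ
  unfold mm
  refine integral_lt_of _ _ (int_mm 2 α hα.1 hα.2) (int_mm 2 β hβ.1 hβ.2) fun μ hμ => ?_
  have := Rf_lt α β μ hα.1 hαβ hβ.2 hμ
  have h2 : 0 < μ ^ 2 := by positivity
  exact mul_lt_mul_of_pos_left this h2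

lemma mm_ge (α : ℝ) (h0 : π / 4 ≤ α) (hα : α < π / 2) :
    Real.exp (-π) / 2 * (π - 2 * α)⁻¹ ≤ mm 2 α := by
  have hpi := Real.pi_gt_three
  have hδ : 0 < π - 2 * α := by linarith
  have hi := int_mm 2 α (by linarith) hα
  have h1 : ∫ μ in Ioi (1 : ℝ), μ ^ 2 * Rf α μ ≤ mm 2 α := by
    unfold mm
    refine setIntegral_mono_set hi ?_ (Eventually.of_forall (Ioi_subset_Ioi zero_le_one))
    exact (ae_restrict_iff' measurableSet_Ioi).mpr (Eventually.of_forall fun μ hμ =>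
      (mul_pos (pow_pos hμ 2) (Rf_pos α μ (by linarith) hα hμ)).le)
  refine le_trans ?_ h1
  have h2 : ∫ μ in Ioi (1 : ℝ), 1 / 2 * Real.exp (-(π - 2 * α) * μ) ≤
      ∫ μ in Ioi (1 : ℝ), μ ^ 2 * Rf α μ := by
    refine setIntegral_mono_on ?_ (hi.mono_set (Ioi_subset_Ioi zero_le_one)) measurableSet_Ioi ?_
    · exact (integrableOn_exp_mul_Ioi (by linarith) 1).const_mul (1 / 2)
    · intro μ hμ
      have hμ1 : (1 : ℝ) < μ := hμ
      have h3 := Rf_ge α μ h0 hα hμ1.le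
      have h4 := Rf_pos α μ (by linarith) hα (by linarith)
      have h5 : (1 : ℝ) ≤ μ ^ 2 := by nlinarith
      rw [neg_mul]
      nlinarith
  refine le_trans ?_ h2
  rw [integral_const_mul, integral_exp_mul_Ioi (by linarith) 1]
  have h6 : Real.exp (-π) ≤ Real.exp (-(π - 2 * α) * 1) := by
    apply Real.exp_le_exp.mpr
    linarith
  have h7 : -Real.exp (-(π - 2 * α) * 1) / -(π - 2 * α) =
      Real.exp (-(π - 2 * α) * 1) * (π - 2 * α)⁻¹ := by
    rw [neg_div_neg_eq, div_eq_mul_inv]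
  rw [h7]
  have h8 : 0 < (π - 2 * α)⁻¹ := inv_pos.mpr hδ
  nlinarith

lemma tend2 : Tendsto (mm 2) (𝓝[<] (π / 2)) atTop := by
  have hpi := Real.pi_gt_three
  have h1 : ∀ᶠ α in 𝓝[<] (π / 2), Real.exp (-π) / 2 * (π - 2 * α)⁻¹ ≤ mm 2 α := by
    have h2 : ∀ᶠ α in 𝓝[<] (π / 2), α ∈ Ioo (π / 4) (π / 2) :=
      Ioo_mem_nhdsLT (by linarith)
    filter_upwards [h2] with α hα
    exact mm_ge α hα.1.le hα.2
  refine tendsto_atTop_mono' _ h1 ?_
  refine Tendsto.const_mul_atTop (by positivity) ?_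
  refine tendsto_inv_nhdsGT_zero.comp ?_
  rw [tendsto_nhdsWithin_iff]
  constructor
  · have h3 : Tendsto (fun α : ℝ => π - 2 * α) (𝓝 (π / 2)) (𝓝 (π - 2 * (π / 2))) := by
      apply Continuous.tendsto; fun_prop
    have h4 : π - 2 * (π / 2) = 0 := by ring
    rw [h4] at h3
    exact h3.mono_left nhdsWithin_le_nhds
  · filter_upwards [self_mem_nhdsWithin] with α hα
    have : α < π / 2 := hα
    show 0 < π - 2 * α
    linarith

lemma df_mono (α : ℝ) (h0 : 0 < α) : StrictMonoOn (Df α) (Ico 0 (π / 2 - α)) := by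
  intro φ hφ ψ hψ hlt
  unfold Df
  have hα : α < π / 2 := by linarith [hφ.1, hφ.2]
  have hint : ∀ χ, 0 ≤ χ → χ < π / 2 - α →
      IntegrableOn (fun μ => Rf α μ * Real.sinh (χ * μ) ^ 2) (Ioi 0) := by
    intro χ h1 h2
    refine Integrable.mono' (int_main 0 α χ h0 h1 (by linarith)) ?_ ?_
    · refine ContinuousOn.aestronglyMeasurable ?_ measurableSet_Ioi
      exact (Rf_cont α hα).mul (by fun_prop)
    · refine (ae_restrict_iff' measurableSet_Ioi).mpr (Eventually.of_forall fun μ hμ => ?_)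
      have h3 := Rf_pos α μ h0 hα hμ
      rw [Real.norm_of_nonneg (by positivity), pow_zero, one_mul]
      have h4 := Real.cosh_sq (χ * μ)
      have : Real.sinh (χ * μ) ^ 2 ≤ Real.cosh (χ * μ) ^ 2 := by linarith
      exact mul_le_mul_of_nonneg_left this h3.le
  refine integral_lt_of _ _ (hint φ hφ.1 hφ.2) (hint ψ hψ.1 hψ.2) fun μ hμ => ?_
  have h3 := Rf_pos α μ h0 hα hμ
  have h4 : Real.sinh (φ * μ) < Real.sinh (ψ * μ) :=
    Real.sinh_lt_sinh.mpr (mul_lt_mul_of_pos_right hlt hμ)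
  have h5 : 0 ≤ Real.sinh (φ * μ) := Real.sinh_nonneg_iff.mpr (mul_nonneg hφ.1 hμ.le)
  exact mul_lt_mul_of_pos_left (pow_lt_pow_left₀ h4 h5 two_ne_zero) h3

lemma df_zero (α : ℝ) : Df α 0 = 0 := by
  unfold Df
  simp

theorem mo : S_MO :=
  ⟨fun k α φ h0 hφ h => int_main k α φ h0 hφ h,
    fun k α h0 h => ⟨int_mm k α h0 h, integral_pos_of _ (int_mm k α h0 h) fun μ hμ =>
      mul_pos (pow_pos hμ k) (Rf_pos α μ h0 h hμ)⟩,
    mono2, tend2, fun α h0 => ⟨df_mono α h0, df_zero α⟩⟩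

end Pool.Agent.N670.QD
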