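import Pool.Agent.N670.QD.Path
import Pool.Agent.R225.LP.NI
import Pool.Agent.R225.LP.TA
import Pool.Agent.R225.LP.RI
import Pool.Agent.R225.LP.TQ
import Pool.Agent.R225.LP.D1

/-!
# BR: the contribution of a side as a measure of loops
-/

set_option autoImplicit false

namespace Pool.Agent.N670.QD

open MeasureTheory Set Filter Topology Complex
open Pool.Agent.N275.QD
open Pool.Agent.R225.LP (gk ks ip cr hS hx pts gm PG YN NN hS_spec pts_finite pts_zero ni ta
  hx_cont nG_sf nG_prob)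
open Pool.Agent.R225.LP.FP (cyc loop_law)
open Pool.Agent.R225.LP.TQ (null_ip)
open scoped Real ENNReal ComplexConjugate

lemma ip_add_r (u a b : ℂ) : ip u (a + b) = ip u a + ip u b := by
  simp only [ip, add_re, add_im]; ring

lemma ip_neg_l (u a : ℂ) : ip (-u) a = -ip u a := by
  simp only [ip, neg_re, neg_im]; ring

lemma ev_all {m : ℕ} (X : Fin (m + 1) → ℂ) (u z : ℂ) :
    (∀ i : Fin (m + 1), ip u (z + gm X i) < 0) ↔ ip u z < -hx X u := by
  obtain ⟨⟨y, hy, e⟩, h⟩ := hS_spec (pts_finite X) ⟨0, pts_zero (Nat.succ_pos m) X⟩ u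
  have h' : ∀ r : ℕ, r < m + 1 → ip u (gm X r) ≤ hx X u := fun r hr => h _ ⟨r, hr, rfl⟩
  have e' : hx X u = ip u y := e
  constructor
  · intro H
    obtain ⟨r, hr, rfl⟩ := hy
    have := H ⟨r, hr⟩
    rw [ip_add_r] at this
    rw [e']
    simp only at this
    linarith
  · intro H i
    rw [ip_add_r]
    have := h' i i.2
    linarith

lemma ev_ex {m : ℕ} (X : Fin (m + 1) → ℂ) (u z : ℂ) (c : ℝ) :
    (∃ i : Fin (m + 1), ip u (z + gm X i) ≤ c) ↔ ip u z ≤ hx X (-u) + c := by
  obtain ⟨⟨y, hy, e⟩, h⟩ := hS_spec (pts_finite X) ⟨0, pts_zero (Nat.succ_pos m) X⟩ (-u)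
  have h' : ∀ r : ℕ, r < m + 1 → ip (-u) (gm X r) ≤ hx X (-u) := fun r hr => h _ ⟨r, hr, rfl⟩
  have e' : hx X (-u) = ip (-u) y := e
  constructor
  · rintro ⟨i, hi⟩
    rw [ip_add_r] at hi
    have := h' i i.2
    rw [ip_neg_l] at this
    linarith
  · intro H
    obtain ⟨r, hr, rfl⟩ := hy
    refine ⟨⟨r, hr⟩, ?_⟩
    rw [ip_add_r]
    rw [e', ip_neg_l] at H
    simp only
    linarith

/-- the extension of the neighbours of the side, rotated -/
noncomputable def Yr (α β : ℝ) {M : ℕ} (X : Fin M → ℂ) : ℝ :=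
  hx X (1 - I * (ct β : ℂ)) + hx X (-1 - I * (ct α : ℂ)) - (ct α + ct β) * hx X (-I)

lemma Yr_cont (α β : ℝ) {M : ℕ} (hM : 0 < M) : Continuous fun X : Fin M → ℂ => Yr α β X := by
  unfold Yr
  exact ((hx_cont hM _).add (hx_cont hM _)).sub (continuous_const.mul (hx_cont hM _))

lemma sin_dec {α β : ℝ} (hα : Real.sin α ≠ 0) (hβ : Real.sin β ≠ 0) :
    Real.sin α * Real.sin β * (ct α + ct β) = Real.sin (α + β) := by
  unfold ct
  rw [Real.sin_add]
  field_simp
  ring

lemma area_ev {α β l : ℝ} (hα : 0 < Real.sin α) (hβ : 0 < Real.sin β) (hαβ : 0 < Real.sin (α + β))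
    {m : ℕ} (X : Fin (m + 1) → ℂ) :
    volume {z : ℂ | ip (-I) z < -hx X (-I) ∧
      ip ⟨Real.sin α, Real.cos α⟩ z ≤ hx X (-⟨Real.sin α, Real.cos α⟩) + 0 ∧
      ip ⟨-Real.sin β, Real.cos β⟩ z ≤ hx X (-⟨-Real.sin β, Real.cos β⟩) + (-(l * Real.sin β))} =
    ENNReal.ofReal ((max (Yr α β X - l) 0) ^ 2 / (2 * (ct α + ct β))) := by
  set v : ℂ := ⟨Real.sin α, Real.cos α⟩ with hv
  set w : ℂ := ⟨-Real.sin β, Real.cos β⟩ with hw
  have hv0 : v ≠ 0 := fun h => hα.ne' (by have := congrArg Complex.re h; simpa [hv] using this)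
  have hw0 : w ≠ 0 := fun h => hβ.ne' (by have := congrArg Complex.re h; simpa [hw] using this)
  have c1 : cr (-I) v = Real.sin α := by simp [cr, hv]
  have c2 : cr v w = Real.sin (α + β) := by simp [cr, hv, hw, Real.sin_add]
  have c3 : cr w (-I) = Real.sin β := by simp [cr, hw]
  have h1 : hx X (-v) = Real.sin α * hx X (-1 - I * (ct α : ℂ)) := by
    rw [← Pool.Agent.R225.LP.RI.hx_pos (Nat.succ_pos m) X hα.le]
    congr 1
    apply Complex.ext
    · simp [hv, -ofReal_sin]
    · simp only [hv, neg_im, ct, mul_im, ofReal_re, ofReal_im, sub_im, one_im, mul_im, I_re, I_im]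
      field_simp
      simp
  have h2 : hx X (-w) = Real.sin β * hx X (1 - I * (ct β : ℂ)) := by
    rw [← Pool.Agent.R225.LP.RI.hx_pos (Nat.succ_pos m) X hβ.le]
    congr 1
    apply Complex.ext
    · simp [hw, -ofReal_sin]
    · simp only [hw, neg_im, ct, mul_im, ofReal_re, ofReal_im, sub_im, one_im, mul_im, I_re, I_im]
      field_simp
      simp
  have key : (-hx X (-I)) * cr v w + (hx X (-v) + 0) * cr w (-I) +
      (hx X (-w) + (-(l * Real.sin β))) * cr (-I) v =
      Real.sin α * Real.sin β * (Yr α β X - l) := by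
    rw [c1, c2, c3, h1, h2, ← sin_dec hα.ne' hβ.ne']
    unfold Yr
    ring
  have hT := ta (-I) v w (-hx X (-I)) (hx X (-v) + 0) (hx X (-w) + (-(l * Real.sin β)))
    (by rw [c1]; exact hα) (by rw [c2]; exact hαβ) (by rw [c3]; exact hβ)
  rw [key, c1, c2, c3] at hT
  have hA : (max (Real.sin α * Real.sin β * (Yr α β X - l)) 0) ^ 2 /
      (2 * (Real.sin α * Real.sin (α + β) * Real.sin β)) =
      (max (Yr α β X - l) 0) ^ 2 / (2 * (ct α + ct β)) := by
    have hp : 0 < Real.sin α * Real.sin β := mul_pos hα hβ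
    have e : max (Real.sin α * Real.sin β * (Yr α β X - l)) 0 =
        Real.sin α * Real.sin β * max (Yr α β X - l) 0 := by
      rw [mul_max_of_nonneg _ _ hp.le, mul_zero]
    have hc : 0 < ct α + ct β := by
      have := sin_dec hα.ne' hβ.ne'
      rw [← this] at hαβ
      exact (mul_pos_iff_of_pos_left hp).1 hαβ
    rw [e, ← sin_dec hα.ne' hβ.ne']
    field_simp
  rw [hA] at hT
  rw [← hT]
  apply measure_congr
  have n1 := null_ip hv0 (hx X (-v) + 0)
  have n2 := null_ip hw0 (hx X (-w) + (-(l * Real.sin β)))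
  have a1 : ∀ᵐ z : ℂ, ip v z ≠ hx X (-v) + 0 := by
    rw [ae_iff]; simpa using n1
  have a2 : ∀ᵐ z : ℂ, ip w z ≠ hx X (-w) + (-(l * Real.sin β)) := by
    rw [ae_iff]; simpa using n2
  filter_upwards [a1, a2] with z b1 b2
  apply propext
  show (ip (-I) z < -hx X (-I) ∧ ip v z ≤ hx X (-v) + 0 ∧
    ip w z ≤ hx X (-w) + (-(l * Real.sin β))) ↔
    (ip (-I) z < -hx X (-I) ∧ ip v z < hx X (-v) + 0 ∧
    ip w z < hx X (-w) + (-(l * Real.sin β)))
  constructor
  · rintro ⟨p, q, r⟩
    exact ⟨p, lt_of_le_of_ne q b1, lt_of_le_of_ne r b2⟩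
  · rintro ⟨p, q, r⟩
    exact ⟨p, q.le, r.le⟩

lemma NN_rot (α β l t : ℝ) {M : ℕ} (ht : 0 < t) (hM : 0 < M) :
    NN (-ct α) (-ct β) l t M =
      ∫ X : Fin M → ℂ, (max (Yr α β X - l) 0) ^ 2 ∂(PG (t / M) M) ∧
    Integrable (fun X : Fin M → ℂ => (max (Yr α β X - l) 0) ^ 2) (PG (t / M) M) := by
  obtain ⟨-, e1, -⟩ := ni.1 (-ct α) (-ct β) l t M ht hM
  obtain ⟨-, -, e3⟩ := ni.1 (-ct β) (-ct α) l t M ht hM
  have hMR : (0 : ℝ) < M := by exact_mod_cast hM
  have hs : 0 < t / (M : ℝ) := div_pos ht hMR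
  have hw : ‖(-I : ℂ)‖ = 1 := by simp
  have hm : Measurable (fun (X : Fin M → ℂ) (i : Fin M) => (-I) * X i) := by fun_prop
  have hc : Continuous (fun X : Fin M → ℂ => (max (Yr α β X - l) 0) ^ 2) :=
    (((Yr_cont α β hM).sub continuous_const).max continuous_const).pow 2
  have hY : ∀ X : Fin M → ℂ, Yr α β (fun i => (-I) * X i) = YN (-ct β) (-ct α) X := by
    intro X
    have f1 := Pool.Agent.R225.LP.D1.hx_rot hw X 1
    have f2 := Pool.Agent.R225.LP.D1.hx_rot hw X (I - ((-ct β : ℝ) : ℂ))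
    have f3 := Pool.Agent.R225.LP.D1.hx_rot hw X (-I - ((-ct α : ℝ) : ℂ))
    have g1 : (-I : ℂ) * 1 = -I := mul_one _
    have g2 : (-I : ℂ) * (I - ((-ct β : ℝ) : ℂ)) = 1 - I * (ct β : ℂ) := by
      push_cast
      linear_combination (-1 : ℂ) * I_mul_I
    have g3 : (-I : ℂ) * (-I - ((-ct α : ℝ) : ℂ)) = -1 - I * (ct α : ℂ) := by
      push_cast
      linear_combination I_mul_I
    rw [g1] at f1
    rw [g2] at f2
    rw [g3] at f3
    unfold Yr YN
    rw [f1, f2, f3]
    ring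
  have hR := Pool.Agent.R225.LP.D1.PG_rot hs hw M
  refine ⟨?_, ?_⟩
  · rw [e1]
    conv_rhs => rw [← hR]
    rw [integral_map hm.aemeasurable hc.aestronglyMeasurable]
    unfold NN
    refine integral_congr_ae (Eventually.of_forall fun X => ?_)
    simp only [hY]
  · rw [← hR, integrable_map_measure hc.aestronglyMeasurable hm.aemeasurable]
    have : ((fun X : Fin M → ℂ => (max (Yr α β X - l) 0) ^ 2) ∘ fun X i => (-I) * X i) =
        fun X : Fin M → ℂ => (max (YN (-ct β) (-ct α) X - l) 0) ^ 2 := by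
      funext X
      simp only [Function.comp, hY]
    rw [this]
    exact e3

theorem br : S_BR := by
  intro α β l t m hα hβ hαβ hl ht
  have sα : 0 < Real.sin α := Real.sin_pos_of_pos_of_lt_pi hα (by linarith)
  have sβ : 0 < Real.sin β := Real.sin_pos_of_pos_of_lt_pi hβ (by linarith)
  have sαβ : 0 < Real.sin (α + β) := Real.sin_pos_of_pos_of_lt_pi (by linarith) hαβ
  have hc : 0 < ct α + ct β := by
    have := sin_dec sα.ne' sβ.ne'
    rw [← this] at sαβ
    exact (mul_pos_iff_of_pos_left (mul_pos sα sβ)).1 sαβ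
  obtain ⟨r1, r2⟩ := NN_rot α β l t ht (Nat.succ_pos m)
  have hs : 0 < t / ((m : ℝ) + 1) := by positivity
  have hms : ((m + 1 : ℕ) : ℝ) * (t / ((m : ℝ) + 1)) = t := by
    push_cast
    field_simp
  set E : Set (Fin (m + 1) → ℂ) := {W : Fin (m + 1) → ℂ | (∀ i, W i ∈ Hh 0) ∧ (∃ i, W i ∉ Hh α) ∧
        ∃ i, l * Real.sin β ≤ (W i).re * Real.sin β - (W i).im * Real.cos β} with hE
  have hHm : ∀ φ, MeasurableSet (Hh φ) := by
    intro φ
    unfold Hh
    exact measurableSet_lt measurable_const (by fun_prop)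
  have hEm : MeasurableSet E := by
    have h1 := all_meas (m := m + 1) (Hh 0) (hHm 0)
    have h2 := ex_meas (m := m + 1) (Hh α)ᶜ (hHm α).compl
    have h3 := ex_meas (m := m + 1)
      {z : ℂ | l * Real.sin β ≤ z.re * Real.sin β - z.im * Real.cos β}
      (measurableSet_le measurable_const (by fun_prop))
    exact h1.inter (h2.inter h3)
  have hΦ : Measurable (E.indicator (1 : (Fin (m + 1) → ℂ) → ℝ≥0∞)) :=
    measurable_one.indicator hEm
  have hL := loop_law hs m hΦ
  rw [hms] at hL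
  rw [hL]
  have hz : ∀ X : Fin (m + 1) → ℂ, ∫⁻ z : ℂ, E.indicator 1 (fun r : Fin (m + 1) => z + gm X r) =
      ENNReal.ofReal ((max (Yr α β X - l) 0) ^ 2 / (2 * (ct α + ct β))) := by
    intro X
    rw [← area_ev sα sβ sαβ X, ← lintegral_indicator_one]
    · refine lintegral_congr fun z => ?_
      have hiff : (fun r : Fin (m + 1) => z + gm X r) ∈ E ↔ z ∈ {z : ℂ | ip (-I) z < -hx X (-I) ∧
          ip ⟨Real.sin α, Real.cos α⟩ z ≤ hx X (-⟨Real.sin α, Real.cos α⟩) + 0 ∧
          ip ⟨-Real.sin β, Real.cos β⟩ z ≤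
            hx X (-⟨-Real.sin β, Real.cos β⟩) + (-(l * Real.sin β))} := by
        show ((∀ i : Fin (m + 1), z + gm X i ∈ Hh 0) ∧ (∃ i : Fin (m + 1), z + gm X i ∉ Hh α) ∧
          ∃ i : Fin (m + 1), l * Real.sin β ≤
            (z + gm X i).re * Real.sin β - (z + gm X i).im * Real.cos β) ↔
          (ip (-I) z < -hx X (-I) ∧
          ip ⟨Real.sin α, Real.cos α⟩ z ≤ hx X (-⟨Real.sin α, Real.cos α⟩) + 0 ∧
          ip ⟨-Real.sin β, Real.cos β⟩ z ≤
            hx X (-⟨-Real.sin β, Real.cos β⟩) + (-(l * Real.sin β)))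
        rw [← ev_all, ← ev_ex, ← ev_ex]
        refine and_congr ?_ (and_congr ?_ ?_)
        · refine forall_congr' fun i => ?_
          simp only [Hh, ip, mem_ofPred_eq, Real.sin_zero, Real.cos_zero, neg_re, neg_im, I_re,
            I_im]
          constructor <;> intro h <;> linarith
        · refine exists_congr fun i => ?_
          simp only [Hh, ip, mem_ofPred_eq, not_lt]
          constructor <;> intro h <;> linarith
        · refine exists_congr fun i => ?_
          simp only [ip]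
          constructor <;> intro h <;> linarith
      by_cases h : (fun r : Fin (m + 1) => z + gm X r) ∈ E
      · rw [indicator_of_mem h, indicator_of_mem (hiff.1 h)]
        rfl
      · rw [indicator_of_notMem h, indicator_of_notMem (fun h' => h (hiff.2 h'))]
    · have hmi : ∀ u : ℂ, Measurable fun z : ℂ => ip u z := by
        intro u
        unfold ip
        fun_prop
      have k1 : MeasurableSet {z : ℂ | ip (-I) z < -hx X (-I)} :=
        measurableSet_lt (hmi _) measurable_const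
      have k2 : MeasurableSet {z : ℂ | ip ⟨Real.sin α, Real.cos α⟩ z ≤
          hx X (-⟨Real.sin α, Real.cos α⟩) + 0} :=
        measurableSet_le (hmi _) measurable_const
      have k3 : MeasurableSet {z : ℂ | ip ⟨-Real.sin β, Real.cos β⟩ z ≤
          hx X (-⟨-Real.sin β, Real.cos β⟩) + (-(l * Real.sin β))} :=
        measurableSet_le (hmi _) measurable_const
      exact k1.inter (k2.inter k3)
  simp only [hz]
  have hcast : t / ((m : ℝ) + 1) = t / ((m + 1 : ℕ) : ℝ) := by push_cast; rfl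
  rw [hcast, ← ofReal_integral_eq_lintegral_ofReal (r2.div_const _)
    (Eventually.of_forall fun X => by positivity), integral_div]
  unfold Nn
  rw [← r1]

end Pool.Agent.N670.QD
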