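import Mathlib
import Pool.Agent.N275.QD.Ana

/-!
# Two angles are determined by two symmetric functions of them
-/

set_option autoImplicit false

namespace Pool.Agent.N670.QD

open MeasureTheory Set Filter Topology
open Pool.Agent.N275.QD
open scoped Real

/-- The Cauchy mean value argument, ordered form. -/
lemma cauchy1 (F G F' G' : ℝ → ℝ) (a b : ℝ) (hF : ∀ x ∈ Ioo a b, HasDerivAt F (F' x) x)
    (hG : ∀ x ∈ Ioo a b, HasDerivAt G (G' x) x) (hpos : ∀ x ∈ Ioo a b, 0 < F' x)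
    (hmono : StrictMonoOn (fun x => G' x / F' x) (Ioo a b)) (x1 x2 y1 y2 : ℝ)
    (hx1 : x1 ∈ Ioo a b) (hx2 : x2 ∈ Ioo a b) (hy1 : y1 ∈ Ioo a b) (hy2 : y2 ∈ Ioo a b)
    (h12 : y1 ≤ y2) (hlt : x1 < y1) (hsF : F x1 + F x2 = F y1 + F y2)
    (hsG : G x1 + G x2 = G y1 + G y2) : False := by
  have hsm : StrictMonoOn F (Ioo a b) := by
    refine strictMonoOn_of_deriv_pos (convex_Ioo a b)
      (fun x hx => (hF x hx).continuousAt.continuousWithinAt) fun x hx => ?_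
    rw [interior_Ioo] at hx
    rw [(hF x hx).deriv]
    exact hpos x hx
  have h1 : F x1 < F y1 := hsm hx1 hy1 hlt
  have h2 : F y2 < F x2 := by linarith
  have h3 : y2 < x2 := (hsm.lt_iff_lt hy2 hx2).mp h2
  have s1 : Icc x1 y1 ⊆ Ioo a b := fun z hz =>
    ⟨lt_of_lt_of_le hx1.1 hz.1, lt_of_le_of_lt hz.2 hy1.2⟩
  have s2 : Icc y2 x2 ⊆ Ioo a b := fun z hz =>
    ⟨lt_of_lt_of_le hy2.1 hz.1, lt_of_le_of_lt hz.2 hx2.2⟩
  obtain ⟨c, hc, hce⟩ := exists_ratio_hasDerivAt_eq_ratio_slope F F' hlt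
    (fun z hz => (hF z (s1 hz)).continuousAt.continuousWithinAt)
    (fun z hz => hF z (s1 (Ioo_subset_Icc_self hz))) G G'
    (fun z hz => (hG z (s1 hz)).continuousAt.continuousWithinAt)
    (fun z hz => hG z (s1 (Ioo_subset_Icc_self hz)))
  obtain ⟨d, hd, hde⟩ := exists_ratio_hasDerivAt_eq_ratio_slope F F' h3
    (fun z hz => (hF z (s2 hz)).continuousAt.continuousWithinAt)
    (fun z hz => hF z (s2 (Ioo_subset_Icc_self hz))) G G'
    (fun z hz => (hG z (s2 hz)).continuousAt.continuousWithinAt)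
    (fun z hz => hG z (s2 (Ioo_subset_Icc_self hz)))
  have hcm : c ∈ Ioo a b := s1 (Ioo_subset_Icc_self hc)
  have hdm : d ∈ Ioo a b := s2 (Ioo_subset_Icc_self hd)
  have hcd : c < d := by linarith [hc.2, hd.1]
  have h4 := hmono hcm hdm hcd
  have h5 := hpos c hcm
  have h6 := hpos d hdm
  have e1 : G' c / F' c = (G y1 - G x1) / (F y1 - F x1) := by
    rw [div_eq_div_iff h5.ne' (by linarith)]
    linarith
  have e2 : G' d / F' d = (G x2 - G y2) / (F x2 - F y2) := by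
    rw [div_eq_div_iff h6.ne' (by linarith)]
    linarith
  have e3 : G y1 - G x1 = G x2 - G y2 := by linarith
  have e4 : F y1 - F x1 = F x2 - F y2 := by linarith
  simp only at h4
  rw [e1, e2, e3, e4] at h4
  exact lt_irrefl _ h4

/-- The Cauchy mean value argument. -/
lemma cauchy2 (F G F' G' : ℝ → ℝ) (a b : ℝ) (hF : ∀ x ∈ Ioo a b, HasDerivAt F (F' x) x)
    (hG : ∀ x ∈ Ioo a b, HasDerivAt G (G' x) x) (hpos : ∀ x ∈ Ioo a b, 0 < F' x)
    (hmono : StrictMonoOn (fun x => G' x / F' x) (Ioo a b)) (x1 x2 y1 y2 : ℝ)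
    (hx1 : x1 ∈ Ioo a b) (hx2 : x2 ∈ Ioo a b) (hy1 : y1 ∈ Ioo a b) (hy2 : y2 ∈ Ioo a b)
    (h12 : x1 ≤ x2) (h34 : y1 ≤ y2) (hsF : F x1 + F x2 = F y1 + F y2)
    (hsG : G x1 + G x2 = G y1 + G y2) : x1 = y1 ∧ x2 = y2 := by
  have hsm : StrictMonoOn F (Ioo a b) := by
    refine strictMonoOn_of_deriv_pos (convex_Ioo a b)
      (fun x hx => (hF x hx).continuousAt.continuousWithinAt) fun x hx => ?_
    rw [interior_Ioo] at hx
    rw [(hF x hx).deriv]
    exact hpos x hx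
  rcases lt_trichotomy x1 y1 with h | h | h
  · exact (cauchy1 F G F' G' a b hF hG hpos hmono x1 x2 y1 y2 hx1 hx2 hy1 hy2 h34 h hsF hsG).elim
  · refine ⟨h, ?_⟩
    rw [h] at hsF
    exact hsm.injOn hx2 hy2 (by linarith)
  · exact (cauchy1 F G F' G' a b hF hG hpos hmono y1 y2 x1 x2 hy1 hy2 hx1 hx2 h12 h hsF.symm
      hsG.symm).elim

/-- The logarithm of the second moment. -/
noncomputable def FF (x : ℝ) : ℝ :=
  3 * Real.log (1 + 2 / π * x) + Real.log (Real.sin x) - 3 * Real.log (Real.cos x)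

/-- The ratio of the moments. -/
noncomputable def GG (x : ℝ) : ℝ := (1 + 2 / π * x) ^ 2 * (2 + 3 * Real.tan x ^ 2)

/-- The derivative of `FF`. -/
noncomputable def FF' (x : ℝ) : ℝ :=
  3 * (2 / π / (1 + 2 / π * x)) + 1 / Real.tan x + 3 * Real.tan x

/-- The derivative of `GG`. -/
noncomputable def GG' (x : ℝ) : ℝ :=
  2 * (2 / π) * (1 + 2 / π * x) * (2 + 3 * Real.tan x ^ 2) +
    (1 + 2 / π * x) ^ 2 * (6 * Real.tan x * (1 + Real.tan x ^ 2))

lemma tan_pos' {x : ℝ} (hx : x ∈ Ioo 0 (π / 2)) : 0 < Real.tan x :=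
  Real.tan_pos_of_pos_of_lt_pi_div_two hx.1 hx.2

lemma cos_pos' {x : ℝ} (hx : x ∈ Ioo 0 (π / 2)) : 0 < Real.cos x :=
  Real.cos_pos_of_mem_Ioo ⟨by linarith [hx.1, Real.pi_pos], hx.2⟩

lemma sin_pos' {x : ℝ} (hx : x ∈ Ioo 0 (π / 2)) : 0 < Real.sin x :=
  Real.sin_pos_of_pos_of_lt_pi hx.1 (by linarith [hx.2, Real.pi_pos])

lemma nu_pos {x : ℝ} (hx : x ∈ Ioo 0 (π / 2)) : 0 < 1 + 2 / π * x := by
  have := Real.pi_pos
  have := hx.1
  positivity

lemma tan_deriv {x : ℝ} (hx : x ∈ Ioo 0 (π / 2)) :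
    HasDerivAt Real.tan (1 + Real.tan x ^ 2) x := by
  have hc := (cos_pos' hx).ne'
  refine (Real.hasDerivAt_tan hc).congr_deriv ?_
  rw [Real.tan_eq_sin_div_cos]
  have hs := Real.sin_sq_add_cos_sq x
  field_simp
  linarith

lemma nu_deriv (x : ℝ) : HasDerivAt (fun x : ℝ => 1 + 2 / π * x) (2 / π) x := by
  simpa using ((hasDerivAt_id x).const_mul (2 / π)).const_add 1

lemma FF_deriv {x : ℝ} (hx : x ∈ Ioo 0 (π / 2)) : HasDerivAt FF (FF' x) x := by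
  have h1 := ((nu_deriv x).log (nu_pos hx).ne').const_mul 3
  have h2 := (Real.hasDerivAt_sin x).log (sin_pos' hx).ne'
  have h3 := ((Real.hasDerivAt_cos x).log (cos_pos' hx).ne').const_mul 3
  refine ((h1.add h2).sub h3).congr_deriv ?_
  unfold FF'
  rw [Real.tan_eq_sin_div_cos, one_div_div]
  ring

lemma GG_deriv {x : ℝ} (hx : x ∈ Ioo 0 (π / 2)) : HasDerivAt GG (GG' x) x := by
  have h1 := (nu_deriv x).pow 2
  have h2 := (((tan_deriv hx).pow 2).const_mul 3).const_add 2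
  refine (h1.mul h2).congr_deriv ?_
  unfold GG'
  norm_num
  ring

lemma FF'_pos {x : ℝ} (hx : x ∈ Ioo 0 (π / 2)) : 0 < FF' x := by
  have h1 := tan_pos' hx
  have h2 := nu_pos hx
  have h3 := Real.pi_pos
  unfold FF'
  positivity

/-- The derivative of `FF'`. -/
lemma FF'_deriv {x : ℝ} (hx : x ∈ Ioo 0 (π / 2)) :
    HasDerivAt FF' (-(3 * ((2 / π) ^ 2 / (1 + 2 / π * x) ^ 2)) -
      (1 + Real.tan x ^ 2) / Real.tan x ^ 2 + 3 * (1 + Real.tan x ^ 2)) x := by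
  have hT := (tan_pos' hx).ne'
  have hn := (nu_pos hx).ne'
  have h1 := (((nu_deriv x).inv hn).const_mul (2 / π)).const_mul 3
  have h2 := (tan_deriv hx).inv hT
  have h3 := (tan_deriv hx).const_mul 3
  have h4 := (h1.add h2).add h3
  have : FF' = fun x => 3 * (2 / π * (1 + 2 / π * x)⁻¹) + (Real.tan x)⁻¹ + 3 * Real.tan x := by
    funext x
    unfold FF'
    rw [one_div, div_eq_mul_inv (2 / π)]
  rw [this]
  refine h4.congr_deriv ?_
  field_simp
  ring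

/-- The derivative of `GG'`. -/
lemma GG'_deriv {x : ℝ} (hx : x ∈ Ioo 0 (π / 2)) :
    HasDerivAt GG' (2 * (2 / π) ^ 2 * (2 + 3 * Real.tan x ^ 2) +
      24 * (2 / π) * (1 + 2 / π * x) * (Real.tan x * (1 + Real.tan x ^ 2)) +
      6 * (1 + 2 / π * x) ^ 2 * ((1 + Real.tan x ^ 2) * (1 + 3 * Real.tan x ^ 2))) x := by
  have hd := tan_deriv hx
  have h1 := ((nu_deriv x).const_mul (2 * (2 / π))).mul (((hd.pow 2).const_mul 3).const_add 2)
  have h2 := ((nu_deriv x).pow 2).mul ((hd.const_mul 6).mul ((hd.pow 2).const_add 1))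
  refine (h1.add h2).congr_deriv ?_
  simp only [Nat.cast_ofNat, Pi.pow_apply, Pi.mul_apply]
  ring

lemma ratio_mono : StrictMonoOn (fun x => GG' x / FF' x) (Ioo 0 (π / 2)) := by
  have hd : ∀ x ∈ Ioo 0 (π / 2), HasDerivAt (fun x => GG' x / FF' x) _ x := fun x hx =>
    (GG'_deriv hx).div (FF'_deriv hx) (FF'_pos hx).ne'
  refine strictMonoOn_of_deriv_pos (convex_Ioo _ _)
    (fun x hx => (hd x hx).continuousAt.continuousWithinAt) fun x hx => ?_
  rw [interior_Ioo] at hx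
  rw [(hd x hx).deriv]
  refine div_pos ?_ (pow_pos (FF'_pos hx) 2)
  have hT := tan_pos' hx
  have hn := nu_pos hx
  have hpi := Real.pi_pos
  unfold FF' GG'
  obtain ⟨κ, hκ⟩ : ∃ κ, κ = 2 / π := ⟨_, rfl⟩
  have hκ0 : 0 < κ := by rw [hκ]; positivity
  rw [← hκ] at hn ⊢
  obtain ⟨n, hn'⟩ : ∃ n, n = 1 + κ * x := ⟨_, rfl⟩
  rw [← hn'] at hn ⊢
  obtain ⟨T, hT'⟩ : ∃ T, T = Real.tan x := ⟨_, rfl⟩
  rw [← hT'] at hT ⊢
  have key : (2 * κ ^ 2 * (2 + 3 * T ^ 2) + 24 * κ * n * (T * (1 + T ^ 2)) +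
      6 * n ^ 2 * ((1 + T ^ 2) * (1 + 3 * T ^ 2))) * (3 * (κ / n) + 1 / T + 3 * T) -
      (2 * κ * n * (2 + 3 * T ^ 2) + n ^ 2 * (6 * T * (1 + T ^ 2))) *
      (-(3 * (κ ^ 2 / n ^ 2)) - (1 + T ^ 2) / T ^ 2 + 3 * (1 + T ^ 2)) =
      (6 * n ^ 2 * (1 + T ^ 2) * T * (2 + 4 * T ^ 2 + 6 * T ^ 4) +
        κ * n * (1 + T ^ 2) * (4 + 36 * T ^ 2 + 108 * T ^ 4) +
        κ ^ 2 * (2 * (2 + 3 * T ^ 2) * T * (1 + 3 * T ^ 2) + 90 * T ^ 3 * (1 + T ^ 2)) +
        κ ^ 3 / n * (12 * T ^ 2 * (2 + 3 * T ^ 2))) / T ^ 2 := by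
    field_simp
    ring
  rw [key]
  positivity

/-- The change of variables. -/
noncomputable def xx (α : ℝ) : ℝ := π * α / (2 * (π - α))

lemma xx_mem {α : ℝ} (h0 : 0 < α) (h1 : α < π / 2) : xx α ∈ Ioo 0 (π / 2) := by
  have hpi := Real.pi_pos
  have h2 : 0 < π - α := by linarith
  constructor
  · unfold xx; positivity
  · unfold xx
    rw [div_lt_div_iff₀ (by positivity) (by norm_num)]
    nlinarith

lemma nu_eq {α : ℝ} (h1 : α < π / 2) : 1 + 2 / π * xx α = π / (π - α) := by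
  have hpi := Real.pi_pos
  have h2 : π - α ≠ 0 := by linarith
  unfold xx
  field_simp
  ring

lemma xx_inj {α β : ℝ} (h1 : α < π / 2) (h2 : β < π / 2) (h : xx α = xx β) : α = β := by
  have hpi := Real.pi_pos
  have h3 := nu_eq h1
  have h4 := nu_eq h2
  rw [h, h4] at h3
  have h5 : π - β ≠ 0 := by linarith
  have h6 : π - α ≠ 0 := by linarith
  rw [div_eq_div_iff h5 h6] at h3
  have := mul_left_cancel₀ hpi.ne' h3
  linarith

theorem ij (hMM : S_MM) : S_IJ := by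
  intro α β α' β' ha ha2 hb hb2 ha' ha2' hb' hb2' h1 h2
  have key : ∀ γ : ℝ, 0 < γ → γ < π / 2 → 0 < mm 2 γ ∧ Real.log (mm 2 γ) = FF (xx γ) - Real.log 4 ∧
      mm 4 γ / mm 2 γ = GG (xx γ) := by
    intro γ h0 hγ
    obtain ⟨e2, e4⟩ := hMM γ (xx γ) h0 hγ rfl
    have hm := xx_mem h0 hγ
    have hc := cos_pos' hm
    have hs := sin_pos' hm
    have hn := nu_pos hm
    rw [← nu_eq hγ] at e2 e4
    have hp : 0 < mm 2 γ := by rw [e2]; positivity
    refine ⟨hp, ?_, ?_⟩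
    · rw [e2, Real.log_div (by positivity) (by positivity), Real.log_mul (by positivity) hs.ne',
        Real.log_mul (by norm_num) (by positivity), Real.log_pow, Real.log_pow]
      unfold FF
      push_cast
      ring
    · rw [e4, mul_div_assoc, div_self hp.ne', mul_one]
      unfold GG
      congr 1
      rw [Real.tan_eq_sin_div_cos]
      have hsc := Real.sin_sq_add_cos_sq (xx γ)
      field_simp
      linarith
  obtain ⟨pa, la, ga⟩ := key α ha ha2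
  obtain ⟨pb, lb, gb⟩ := key β hb hb2
  obtain ⟨pa', la', ga'⟩ := key α' ha' ha2'
  obtain ⟨pb', lb', gb'⟩ := key β' hb' hb2'
  have hF : FF (xx α) + FF (xx β) = FF (xx α') + FF (xx β') := by
    have := congrArg Real.log h1
    rw [Real.log_mul pa.ne' pb.ne', Real.log_mul pa'.ne' pb'.ne', la, lb, la', lb'] at this
    linarith
  have hG : GG (xx α) + GG (xx β) = GG (xx α') + GG (xx β') := by
    rw [ga, gb, ga', gb'] at h2
    exact h2
  have mα := xx_mem ha ha2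
  have mβ := xx_mem hb hb2
  have mα' := xx_mem ha' ha2'
  have mβ' := xx_mem hb' hb2'
  have C := fun x1 x2 y1 y2 hx1 hx2 hy1 hy2 h12 h34 hsF hsG =>
    cauchy2 FF GG FF' GG' 0 (π / 2) (fun x hx => FF_deriv hx) (fun x hx => GG_deriv hx)
      (fun x hx => FF'_pos hx) ratio_mono x1 x2 y1 y2 hx1 hx2 hy1 hy2 h12 h34 hsF hsG
  rcases le_total (xx α) (xx β) with h | h <;> rcases le_total (xx α') (xx β') with h' | h'
  · obtain ⟨e1, e2⟩ := C _ _ _ _ mα mβ mα' mβ' h h' hF hG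
    exact Or.inl ⟨xx_inj ha2 ha2' e1, xx_inj hb2 hb2' e2⟩
  · obtain ⟨e1, e2⟩ := C _ _ _ _ mα mβ mβ' mα' h h' (by linarith) (by linarith)
    exact Or.inr ⟨xx_inj ha2 hb2' e1, xx_inj hb2 ha2' e2⟩
  · obtain ⟨e1, e2⟩ := C _ _ _ _ mβ mα mα' mβ' h h' (by linarith) (by linarith)
    exact Or.inr ⟨xx_inj ha2 hb2' e2, xx_inj hb2 ha2' e1⟩
  · obtain ⟨e1, e2⟩ := C _ _ _ _ mβ mα mβ' mα' h h' (by linarith) (by linarith)
    exact Or.inl ⟨xx_inj ha2 ha2' e2, xx_inj hb2 hb2' e1⟩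

end Pool.Agent.N670.QD
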