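import Mathlib
import Pool.Agent.N670.QD.MO

/-!
# Differentiation of the moments with respect to the parameter
-/

set_option autoImplicit false

namespace Pool.Agent.N670.QD

open MeasureTheory Set Filter Topology
open scoped Real

/-- A lower bound of the hyperbolic sine. -/
lemma sinh_ge (x : ℝ) (_hx : 0 < x) : x * Real.exp x ≤ (1 + 2 * x) * Real.sinh x := by
  rw [Real.sinh_eq]
  have h1 : Real.exp (-x) * (1 + 2 * x) ≤ Real.exp x := by
    have h2 := Real.add_one_le_exp (2 * x)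
    have h3 : Real.exp x = Real.exp (-x) * Real.exp (2 * x) := by
      rw [← Real.exp_add]; congr 1; ring
    rw [h3]
    exact mul_le_mul_of_nonneg_left (by linarith) (Real.exp_pos _).le
  nlinarith

/-- the even function -/
noncomputable def Ck (b : ℝ) (k : ℕ) (a μ : ℝ) : ℝ := μ ^ k * Real.cosh (a * μ) / Real.sinh (b * μ)

/-- the odd function -/
noncomputable def Sk (b : ℝ) (k : ℕ) (a μ : ℝ) : ℝ := μ ^ k * Real.sinh (a * μ) / Real.sinh (b * μ)

lemma sb_pos {b μ : ℝ} (hb : 0 < b) (hμ : 0 < μ) : 0 < Real.sinh (b * μ) :=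
  Real.sinh_pos_iff.mpr (mul_pos hb hμ)

lemma cont_Ck (b : ℝ) (hb : 0 < b) (k : ℕ) (a : ℝ) : ContinuousOn (Ck b k a) (Ioi 0) := by
  unfold Ck
  exact ContinuousOn.div (by fun_prop) (by fun_prop) fun μ hμ => (sb_pos hb hμ).ne'

lemma cont_Sk (b : ℝ) (hb : 0 < b) (k : ℕ) (a : ℝ) : ContinuousOn (Sk b k a) (Ioi 0) := by
  unfold Sk
  exact ContinuousOn.div (by fun_prop) (by fun_prop) fun μ hμ => (sb_pos hb hμ).ne'

lemma cosh_le_exp (a μ : ℝ) (ha : 0 ≤ a) (hμ : 0 < μ) : Real.cosh (a * μ) ≤ Real.exp (a * μ) := by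
  rw [Real.cosh_eq]
  have : Real.exp (-(a * μ)) ≤ Real.exp (a * μ) := by
    apply Real.exp_le_exp.mpr
    have : 0 ≤ a * μ := by positivity
    linarith
  linarith

lemma int_Ck (b a : ℝ) (k : ℕ) (ha : 0 ≤ a) (hab : a < b) :
    IntegrableOn (Ck b (k + 1) a) (Ioi 0) := by
  have hb : 0 < b := by linarith
  have h1 := (int_bound k (b - a) (by linarith)).const_mul (1 / b)
  have h2 := (int_bound (k + 1) (b - a) (by linarith)).const_mul 2
  refine Integrable.mono' (h1.add h2) ((cont_Ck b hb (k + 1) a).aestronglyMeasurable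
    measurableSet_Ioi) ?_
  refine (ae_restrict_iff' measurableSet_Ioi).mpr (Eventually.of_forall fun μ hμ => ?_)
  have hμ0 : 0 < μ := hμ
  have hs := sb_pos hb hμ0
  unfold Ck
  rw [Real.norm_of_nonneg (by have := Real.cosh_pos (a * μ); positivity), div_le_iff₀ hs]
  have h3 := sinh_ge (b * μ) (mul_pos hb hμ0)
  have h4 := cosh_le_exp a μ ha hμ0
  simp only [Pi.add_apply]
  have h5 : 1 / b * (μ ^ k * Real.exp (-((b - a) * μ))) +
      2 * (μ ^ (k + 1) * Real.exp (-((b - a) * μ))) =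
      μ ^ k * Real.exp (-((b - a) * μ)) * (1 / b) * (1 + 2 * (b * μ)) := by
    field_simp
    ring
  rw [h5, mul_assoc _ (1 + 2 * (b * μ))]
  have h6 : μ ^ k * Real.exp (-((b - a) * μ)) * (1 / b) * (b * μ * Real.exp (b * μ)) =
      μ ^ (k + 1) * Real.exp (a * μ) := by
    have : Real.exp (a * μ) = Real.exp (-((b - a) * μ)) * Real.exp (b * μ) := by
      rw [← Real.exp_add]; congr 1; ring
    rw [this]
    field_simp
    ring
  calc μ ^ (k + 1) * Real.cosh (a * μ) ≤ μ ^ (k + 1) * Real.exp (a * μ) :=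
        mul_le_mul_of_nonneg_left h4 (by positivity)
    _ = μ ^ k * Real.exp (-((b - a) * μ)) * (1 / b) * (b * μ * Real.exp (b * μ)) := h6.symm
    _ ≤ μ ^ k * Real.exp (-((b - a) * μ)) * (1 / b) *
        ((1 + 2 * (b * μ)) * Real.sinh (b * μ)) :=
        mul_le_mul_of_nonneg_left h3 (by positivity)

lemma abs_Sk_le (b a μ : ℝ) (k : ℕ) (hb : 0 < b) (ha : 0 ≤ a) (hμ : 0 < μ) :
    |Sk b k a μ| ≤ 2 * a * Ck b (k + 1) a μ := by
  have hs := sb_pos hb hμ
  have h1 : Real.sinh (a * μ) ≤ 2 * (a * μ) * Real.cosh (a * μ) := by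
    have h2 : 0 ≤ a * μ := by positivity
    rw [Real.sinh_eq, Real.cosh_eq]
    have h4 : Real.exp (-(a * μ)) = Real.exp (a * μ) * Real.exp (-(2 * (a * μ))) := by
      rw [← Real.exp_add]; congr 1; ring
    have h5 := Real.add_one_le_exp (-(2 * (a * μ)))
    have h6 := mul_le_mul_of_nonneg_left h5 (Real.exp_pos (a * μ)).le
    have h7 : 0 ≤ a * μ * Real.exp (-(a * μ)) := by positivity
    rw [← h4] at h6
    linarith
  have h3 : 0 ≤ Real.sinh (a * μ) := Real.sinh_nonneg_iff.mpr (by positivity)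
  unfold Sk Ck
  rw [abs_of_nonneg (by positivity), mul_div_assoc']
  apply div_le_div_of_nonneg_right _ hs.le
  calc μ ^ k * Real.sinh (a * μ) ≤ μ ^ k * (2 * (a * μ) * Real.cosh (a * μ)) :=
        mul_le_mul_of_nonneg_left h1 (by positivity)
    _ = 2 * a * (μ ^ (k + 1) * Real.cosh (a * μ)) := by ring

lemma int_Sk (b a : ℝ) (k : ℕ) (ha : 0 ≤ a) (hab : a < b) : IntegrableOn (Sk b k a) (Ioi 0) := by
  have hb : 0 < b := by linarith
  refine Integrable.mono' ((int_Ck b a k ha hab).const_mul (2 * a)) ((cont_Sk b hb k a).aestronglyMeasurable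
    measurableSet_Ioi) ?_
  exact (ae_restrict_iff' measurableSet_Ioi).mpr (Eventually.of_forall fun μ hμ =>
    abs_Sk_le b a μ k hb ha hμ)

lemma deriv_S (b a : ℝ) (k : ℕ) (ha : 0 < a) (hab : a < b) :
    HasDerivAt (fun a => ∫ μ in Ioi (0 : ℝ), Sk b k a μ) (∫ μ in Ioi (0 : ℝ), Ck b (k + 1) a μ)
      a := by
  have hb : 0 < b := by linarith
  set c := (a + b) / 2 with hc
  have hs : Ioo 0 c ∈ 𝓝 a := Ioo_mem_nhds ha (by rw [hc]; linarith)
  refine (hasDerivAt_integral_of_dominated_loc_of_deriv_le (F := fun a μ => Sk b k a μ)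
    (F' := fun a μ => Ck b (k + 1) a μ) (bound := Ck b (k + 1) c) hs ?_
    (int_Sk b a k ha.le hab) ((cont_Ck b hb (k + 1) a).aestronglyMeasurable measurableSet_Ioi)
    ?_ (int_Ck b c k (by rw [hc]; linarith) (by rw [hc]; linarith)) ?_).2
  · exact Eventually.of_forall fun x => (cont_Sk b hb k x).aestronglyMeasurable measurableSet_Ioi
  · refine (ae_restrict_iff' measurableSet_Ioi).mpr (Eventually.of_forall fun μ hμ x hx => ?_)
    have hμ0 : 0 < μ := hμ
    have hsb := sb_pos hb hμ0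
    unfold Ck
    rw [Real.norm_of_nonneg (by have := Real.cosh_pos (x * μ); positivity)]
    apply div_le_div_of_nonneg_right _ hsb.le
    apply mul_le_mul_of_nonneg_left _ (by positivity)
    rw [Real.cosh_le_cosh, abs_of_nonneg (by have := hx.1; positivity),
      abs_of_nonneg (by rw [hc]; positivity)]
    exact mul_le_mul_of_nonneg_right hx.2.le hμ0.le
  · refine (ae_restrict_iff' measurableSet_Ioi).mpr (Eventually.of_forall fun μ hμ x hx => ?_)
    unfold Sk Ck
    have h1 : HasDerivAt (fun x : ℝ => x * μ) μ x := by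
      simpa using (hasDerivAt_id x).mul_const μ
    have h2 := ((h1.sinh).const_mul (μ ^ k)).div_const (Real.sinh (b * μ))
    refine h2.congr_deriv ?_
    ring

lemma deriv_C (b a : ℝ) (k : ℕ) (ha : 0 < a) (hab : a < b) :
    HasDerivAt (fun a => ∫ μ in Ioi (0 : ℝ), Ck b (k + 1) a μ)
      (∫ μ in Ioi (0 : ℝ), Sk b (k + 2) a μ) a := by
  have hb : 0 < b := by linarith
  set c := (a + b) / 2 with hc
  have hs : Ioo 0 c ∈ 𝓝 a := Ioo_mem_nhds ha (by rw [hc]; linarith)
  refine (hasDerivAt_integral_of_dominated_loc_of_deriv_le (F := fun a μ => Ck b (k + 1) a μ)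
    (F' := fun a μ => Sk b (k + 2) a μ) (bound := Sk b (k + 2) c) hs ?_
    (int_Ck b a k ha.le hab) ((cont_Sk b hb (k + 2) a).aestronglyMeasurable measurableSet_Ioi)
    ?_ (int_Sk b c (k + 2) (by rw [hc]; linarith) (by rw [hc]; linarith)) ?_).2
  · exact Eventually.of_forall fun x => (cont_Ck b hb (k + 1) x).aestronglyMeasurable
      measurableSet_Ioi
  · refine (ae_restrict_iff' measurableSet_Ioi).mpr (Eventually.of_forall fun μ hμ x hx => ?_)
    have hμ0 : 0 < μ := hμ
    have hsb := sb_pos hb hμ0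
    unfold Sk
    rw [Real.norm_of_nonneg (by
      have : 0 ≤ Real.sinh (x * μ) := Real.sinh_nonneg_iff.mpr (mul_nonneg hx.1.le hμ0.le)
      positivity)]
    apply div_le_div_of_nonneg_right _ hsb.le
    apply mul_le_mul_of_nonneg_left _ (by positivity)
    exact Real.sinh_le_sinh.mpr (mul_le_mul_of_nonneg_right hx.2.le hμ0.le)
  · refine (ae_restrict_iff' measurableSet_Ioi).mpr (Eventually.of_forall fun μ hμ x hx => ?_)
    unfold Sk Ck
    have h1 : HasDerivAt (fun x : ℝ => x * μ) μ x := by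
      simpa using (hasDerivAt_id x).mul_const μ
    have h2 := ((h1.cosh).const_mul (μ ^ (k + 1))).div_const (Real.sinh (b * μ))
    refine h2.congr_deriv ?_
    ring

end Pool.Agent.N670.QD
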