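import Mathlib
import Pool.Agent.N670.QD.MM1

/-!
# The integral of a ratio of hyperbolic sines
-/

set_option autoImplicit false

namespace Pool.Agent.N670.QD

open MeasureTheory Set Filter Topology
open scoped Real

/-- The partial fractions of the cotangent at a real point. -/
lemma cot_real (x : ℝ) (h0 : 0 < x) (h1 : x < 1) :
    Tendsto (fun n : ℕ => ∑ j ∈ Finset.range n, (1 / (x - (j + 1)) + 1 / (x + (j + 1)))) atTop
      (𝓝 (π * (Real.cos (π * x) / Real.sin (π * x)) - 1 / x)) := by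
  have hx : (x : ℂ) ∈ Complex.integerComplement := by
    rw [Complex.mem_integerComplement_iff]
    rintro ⟨n, hn⟩
    have hn' : (n : ℝ) = x := by exact_mod_cast hn
    have h2 : (0 : ℝ) < n := by rw [hn']; exact h0
    have h3 : (n : ℝ) < 1 := by rw [hn']; exact h1
    have h4 : 0 < n := by exact_mod_cast h2
    have h5 : n < 1 := by exact_mod_cast h3
    omega
  have h := tendsto_logDeriv_euler_cot_sub hx
  have h2 := (Complex.continuous_re.tendsto _).comp h
  have e1 : (π * Complex.cot (π * x) - 1 / (x : ℂ)).re =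
      π * (Real.cos (π * x) / Real.sin (π * x)) - 1 / x := by
    rw [Complex.cot]
    have : (π : ℂ) * (Complex.cos (π * x) / Complex.sin (π * x)) - 1 / (x : ℂ) =
        ((π * (Real.cos (π * x) / Real.sin (π * x)) - 1 / x : ℝ) : ℂ) := by
      push_cast
      rfl
    rw [this, Complex.ofReal_re]
  rw [e1] at h2
  refine h2.congr fun n => ?_
  simp only [Function.comp]
  have : ∑ j ∈ Finset.range n, cotTerm (x : ℂ) j =
      ((∑ j ∈ Finset.range n, (1 / (x - (j + 1)) + 1 / (x + (j + 1))) : ℝ) : ℂ) := by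
    push_cast
    rfl
  rw [this, Complex.ofReal_re]

/-- The terms of the series. -/
noncomputable def tt (a b : ℝ) (n : ℕ) : ℝ :=
  1 / ((2 * n + 1) * b - a) - 1 / ((2 * n + 1) * b + a)

lemma tt_pos_den (a b : ℝ) (ha : 0 < a) (hab : a < b) (n : ℕ) :
    0 < (2 * n + 1) * b - a ∧ 0 < (2 * n + 1) * b + a := by
  have hn : (0 : ℝ) ≤ n := Nat.cast_nonneg n
  have hb : 0 < b := by linarith
  have h1 : 0 ≤ n * b := by positivity
  constructor <;> nlinarith

lemma tt_nonneg (a b : ℝ) (ha : 0 < a) (hab : a < b) (n : ℕ) : 0 ≤ tt a b n := by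
  obtain ⟨h1, h2⟩ := tt_pos_den a b ha hab n
  unfold tt
  rw [sub_nonneg]
  exact one_div_le_one_div_of_le h1 (by linarith)

lemma tt_sum (a b : ℝ) (ha : 0 < a) (hab : a < b) (N : ℕ) :
    ∑ n ∈ Finset.range N, tt a b n =
      -(1 / (2 * b)) * (∑ j ∈ Finset.range N,
        (1 / ((1 / 2 + a / (2 * b)) - (j + 1)) + 1 / ((1 / 2 + a / (2 * b)) + (j + 1)))) -
        1 / (b + a) + 1 / ((2 * N + 1) * b + a) := by
  have hb : 0 < b := by linarith
  induction N with
  | zero => simp
  | succ N ih =>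
    rw [Finset.sum_range_succ, Finset.sum_range_succ, ih]
    obtain ⟨h1, h2⟩ := tt_pos_den a b ha hab N
    obtain ⟨h3, h4⟩ := tt_pos_den a b ha hab (N + 1)
    push_cast at h3 h4
    have e1 : 1 / ((1 / 2 + a / (2 * b)) - ((N : ℝ) + 1)) = -(2 * b) / ((2 * N + 1) * b - a) := by
      have : (1 / 2 + a / (2 * b)) - ((N : ℝ) + 1) = -((2 * N + 1) * b - a) / (2 * b) := by
        field_simp
        ring
      rw [this, one_div_div, div_neg, neg_div]
    have e2 : 1 / ((1 / 2 + a / (2 * b)) + ((N : ℝ) + 1)) =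
        (2 * b) / ((2 * (N + 1) + 1) * b + a) := by
      have : (1 / 2 + a / (2 * b)) + ((N : ℝ) + 1) = ((2 * (N + 1) + 1) * b + a) / (2 * b) := by
        field_simp
        ring
      rw [this, one_div_div]
    rw [e1, e2]
    unfold tt
    push_cast
    have h5 : (2 * b) ≠ 0 := by positivity
    have e3 : -(1 / (2 * b)) * (-(2 * b) / ((2 * N + 1) * b - a) +
        2 * b / ((2 * (N + 1) + 1) * b + a)) =
        1 / ((2 * N + 1) * b - a) - 1 / ((2 * (N + 1) + 1) * b + a) := by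
      field_simp
      ring
    linear_combination -e3

lemma tt_hasSum (a b : ℝ) (ha : 0 < a) (hab : a < b) :
    HasSum (tt a b) (π / (2 * b) * Real.tan (π * a / (2 * b))) := by
  have hb : 0 < b := by linarith
  rw [hasSum_iff_tendsto_nat_of_nonneg (tt_nonneg a b ha hab)]
  have hx1 : 1 / 2 + a / (2 * b) < 1 := by
    have : a / (2 * b) < 1 / 2 := by
      rw [div_lt_div_iff₀ (by positivity) (by norm_num)]; linarith
    linarith
  have h := cot_real (1 / 2 + a / (2 * b)) (by positivity) hx1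
  have h2 : Tendsto (fun N : ℕ => 1 / ((2 * (N : ℝ) + 1) * b + a)) atTop (𝓝 0) := by
    simp_rw [one_div]
    refine Tendsto.inv_tendsto_atTop ?_
    apply tendsto_atTop_add_const_right
    apply Tendsto.atTop_mul_const hb
    apply tendsto_atTop_add_const_right
    exact Tendsto.const_mul_atTop (by norm_num) tendsto_natCast_atTop_atTop
  have h3 := ((h.const_mul (-(1 / (2 * b)))).sub_const (1 / (b + a))).add h2
  have e : -(1 / (2 * b)) * (π * (Real.cos (π * (1 / 2 + a / (2 * b))) /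
      Real.sin (π * (1 / 2 + a / (2 * b)))) - 1 / (1 / 2 + a / (2 * b))) - 1 / (b + a) + 0 =
      π / (2 * b) * Real.tan (π * a / (2 * b)) := by
    have e1 : π * (1 / 2 + a / (2 * b)) = π * a / (2 * b) + π / 2 := by ring
    rw [e1, Real.cos_add_pi_div_two, Real.sin_add_pi_div_two, Real.tan_eq_sin_div_cos]
    have e2 : 1 / (1 / 2 + a / (2 * b)) = 2 * b / (b + a) := by
      have h0 : b + a ≠ 0 := by positivity
      field_simp
    rw [e2]
    have h0 : b + a ≠ 0 := by positivity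
    field_simp
    ring
  rw [e] at h3
  refine h3.congr fun N => ?_
  exact (tt_sum a b ha hab N).symm

/-- The functions of the series. -/
noncomputable def Fk (a b : ℝ) (n : ℕ) (μ : ℝ) : ℝ :=
  Real.exp (-((2 * n + 1) * b - a) * μ) - Real.exp (-((2 * n + 1) * b + a) * μ)

lemma Fk_int (a b : ℝ) (ha : 0 < a) (hab : a < b) (n : ℕ) : IntegrableOn (Fk a b n) (Ioi 0) := by
  obtain ⟨h1, h2⟩ := tt_pos_den a b ha hab n
  exact (integrableOn_exp_mul_Ioi (by linarith) 0).sub (integrableOn_exp_mul_Ioi (by linarith) 0)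

lemma Fk_integral (a b : ℝ) (ha : 0 < a) (hab : a < b) (n : ℕ) :
    ∫ μ in Ioi (0 : ℝ), Fk a b n μ = tt a b n := by
  obtain ⟨h1, h2⟩ := tt_pos_den a b ha hab n
  unfold Fk tt
  rw [integral_sub (integrableOn_exp_mul_Ioi (by linarith) 0)
    (integrableOn_exp_mul_Ioi (by linarith) 0), integral_exp_mul_Ioi (by linarith) 0,
    integral_exp_mul_Ioi (by linarith) 0, mul_zero, mul_zero, Real.exp_zero, neg_div_neg_eq,
    neg_div_neg_eq]

lemma Fk_nonneg (a b : ℝ) (ha : 0 < a) (n : ℕ) (μ : ℝ) (hμ : 0 < μ) :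
    0 ≤ Fk a b n μ := by
  unfold Fk
  rw [sub_nonneg]
  apply Real.exp_le_exp.mpr
  nlinarith [mul_pos ha hμ]

lemma Fk_tsum (a b μ : ℝ) (ha : 0 < a) (hab : a < b) (hμ : 0 < μ) :
    ∑' n, Fk a b n μ = Sk b 0 a μ := by
  have hb : 0 < b := by linarith
  have hr : Real.exp (-(2 * b * μ)) < 1 := by
    rw [Real.exp_lt_one_iff]; nlinarith [mul_pos hb hμ]
  have h1 : ∀ n, Fk a b n μ =
      2 * Real.sinh (a * μ) * Real.exp (-(b * μ)) * Real.exp (-(2 * b * μ)) ^ n := by
    intro n
    unfold Fk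
    rw [← Real.exp_nat_mul, Real.sinh_eq]
    have e1 : Real.exp (-((2 * n + 1) * b - a) * μ) =
        Real.exp (a * μ) * (Real.exp (-(b * μ)) * Real.exp (n * -(2 * b * μ))) := by
      rw [← Real.exp_add, ← Real.exp_add]; congr 1; ring
    have e2 : Real.exp (-((2 * n + 1) * b + a) * μ) =
        Real.exp (-(a * μ)) * (Real.exp (-(b * μ)) * Real.exp (n * -(2 * b * μ))) := by
      rw [← Real.exp_add, ← Real.exp_add]; congr 1; ring
    rw [e1, e2]
    ring
  simp_rw [h1]
  rw [tsum_mul_left, tsum_geometric_of_lt_one (Real.exp_pos _).le hr]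
  unfold Sk
  have hs := sb_pos hb hμ
  rw [pow_zero, one_mul, eq_div_iff hs.ne', Real.sinh_eq (b * μ)]
  have h2 : 1 - Real.exp (-(2 * b * μ)) ≠ 0 := by linarith
  have h3 : Real.exp (-(b * μ)) * (Real.exp (b * μ) - Real.exp (-(b * μ))) =
      1 - Real.exp (-(2 * b * μ)) := by
    rw [mul_sub, ← Real.exp_add, ← Real.exp_add]
    congr 1
    · rw [neg_add_cancel, Real.exp_zero]
    · congr 1; ring
  have h4 : 2 * Real.sinh (a * μ) * Real.exp (-(b * μ)) * (1 - Real.exp (-(2 * b * μ)))⁻¹ *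
      ((Real.exp (b * μ) - Real.exp (-(b * μ))) / 2) =
      Real.sinh (a * μ) * (Real.exp (-(b * μ)) * (Real.exp (b * μ) - Real.exp (-(b * μ)))) *
        (1 - Real.exp (-(2 * b * μ)))⁻¹ := by ring
  rw [h4, h3, mul_assoc, mul_inv_cancel₀ h2, mul_one]

/-- The integral of the ratio. -/
lemma S0_eq (b a : ℝ) (ha : 0 < a) (hab : a < b) :
    ∫ μ in Ioi (0 : ℝ), Sk b 0 a μ = π / (2 * b) * Real.tan (π * a / (2 * b)) := by
  have hsum : Summable fun n => ∫ μ in Ioi (0 : ℝ), ‖Fk a b n μ‖ := by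
    have : (fun n => ∫ μ in Ioi (0 : ℝ), ‖Fk a b n μ‖) = tt a b := by
      funext n
      rw [← Fk_integral a b ha hab n]
      refine setIntegral_congr_fun measurableSet_Ioi fun μ hμ => ?_
      exact Real.norm_of_nonneg (Fk_nonneg a b ha n μ hμ)
    rw [this]
    exact (tt_hasSum a b ha hab).summable
  have h := hasSum_integral_of_summable_integral_norm (fun n => Fk_int a b ha hab n) hsum
  have h2 : ∫ μ in Ioi (0 : ℝ), ∑' n, Fk a b n μ = ∫ μ in Ioi (0 : ℝ), Sk b 0 a μ :=
    setIntegral_congr_fun measurableSet_Ioi fun μ hμ => Fk_tsum a b μ ha hab hμ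
  rw [h2] at h
  simp_rw [Fk_integral a b ha hab] at h
  exact h.unique (tt_hasSum a b ha hab)

end Pool.Agent.N670.QD
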