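import Mathlib
import Pool.Agent.N670.QD.MM2

/-!
# Closed forms of two moments
-/

set_option autoImplicit false

namespace Pool.Agent.N670.QD

open MeasureTheory Set Filter Topology
open Pool.Agent.N275.QD
open scoped Real

/-- the tangent -/
noncomputable def tn (b a : ℝ) : ℝ := Real.tan (π / (2 * b) * a)

lemma tn_deriv (b a : ℝ) (ha : 0 < a) (hab : a < b) :
    HasDerivAt (tn b) (π / (2 * b) * (1 + tn b a ^ 2)) a := by
  have hb : 0 < b := by linarith
  have hpi := Real.pi_pos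
  have hc : Real.cos (π / (2 * b) * a) ≠ 0 := by
    apply (Real.cos_pos_of_mem_Ioo ⟨?_, ?_⟩).ne'
    · have : 0 < π / (2 * b) * a := by positivity
      linarith
    · have : π / (2 * b) * a = π / 2 * (a / b) := by field_simp
      rw [this]
      have h2 : a / b < 1 := (div_lt_one hb).mpr hab
      nlinarith
  have h1 : HasDerivAt (fun a : ℝ => π / (2 * b) * a) (π / (2 * b)) a := by
    simpa using (hasDerivAt_id a).const_mul (π / (2 * b))
  have h2 := (Real.hasDerivAt_tan hc).comp a h1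
  refine h2.congr_deriv ?_
  unfold tn
  rw [Real.tan_eq_sin_div_cos, mul_comm]
  congr 1
  have hs := Real.sin_sq_add_cos_sq (π / (2 * b) * a)
  generalize Real.cos (π / (2 * b) * a) = c at hc hs ⊢
  generalize Real.sin (π / (2 * b) * a) = s at hs ⊢
  field_simp
  linarith

lemma uniq (F g : ℝ → ℝ) (b a d e : ℝ) (ha : 0 < a) (hab : a < b)
    (hF : ∀ x, 0 < x → x < b → F x = g x) (h1 : HasDerivAt F d a) (h2 : HasDerivAt g e a) :
    d = e := by
  have h3 : F =ᶠ[𝓝 a] g := by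
    filter_upwards [Ioo_mem_nhds ha hab] with x hx
    exact hF x hx.1 hx.2
  exact h1.unique (h2.congr_of_eventuallyEq h3)

lemma M0 (b a : ℝ) (ha : 0 < a) (hab : a < b) :
    ∫ μ in Ioi (0 : ℝ), Sk b 0 a μ = π / (2 * b) * tn b a := by
  rw [S0_eq b a ha hab]
  unfold tn
  congr 2
  ring

lemma M1 (b a : ℝ) (ha : 0 < a) (hab : a < b) :
    ∫ μ in Ioi (0 : ℝ), Ck b 1 a μ = (π / (2 * b)) ^ 2 * (1 + tn b a ^ 2) := by
  refine uniq _ _ b a _ _ ha hab (fun x hx hxb => M0 b x hx hxb) (deriv_S b a 0 ha hab) ?_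
  refine ((tn_deriv b a ha hab).const_mul (π / (2 * b))).congr_deriv ?_
  ring

lemma M2 (b a : ℝ) (ha : 0 < a) (hab : a < b) :
    ∫ μ in Ioi (0 : ℝ), Sk b 2 a μ = (π / (2 * b)) ^ 3 * (2 * tn b a + 2 * tn b a ^ 3) := by
  refine uniq _ _ b a _ _ ha hab (fun x hx hxb => M1 b x hx hxb) (deriv_C b a 0 ha hab) ?_
  have h := tn_deriv b a ha hab
  refine (((h.pow 2).const_add 1).const_mul ((π / (2 * b)) ^ 2)).congr_deriv ?_
  norm_num
  ring

lemma M3 (b a : ℝ) (ha : 0 < a) (hab : a < b) :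
    ∫ μ in Ioi (0 : ℝ), Ck b 3 a μ =
      (π / (2 * b)) ^ 4 * (2 + 8 * tn b a ^ 2 + 6 * tn b a ^ 4) := by
  refine uniq _ _ b a _ _ ha hab (fun x hx hxb => M2 b x hx hxb) (deriv_S b a 2 ha hab) ?_
  have h := tn_deriv b a ha hab
  refine (((h.const_mul 2).add ((h.pow 3).const_mul 2)).const_mul
    ((π / (2 * b)) ^ 3)).congr_deriv ?_
  norm_num
  ring

lemma M4 (b a : ℝ) (ha : 0 < a) (hab : a < b) :
    ∫ μ in Ioi (0 : ℝ), Sk b 4 a μ =
      (π / (2 * b)) ^ 5 * (16 * tn b a + 40 * tn b a ^ 3 + 24 * tn b a ^ 5) := by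
  refine uniq _ _ b a _ _ ha hab (fun x hx hxb => M3 b x hx hxb) (deriv_C b a 2 ha hab) ?_
  have h := tn_deriv b a ha hab
  refine ((((h.pow 2).const_mul 8).const_add 2).add ((h.pow 4).const_mul 6) |>.const_mul
    ((π / (2 * b)) ^ 4)).congr_deriv ?_
  norm_num
  ring

lemma mm_eq (k : ℕ) (α : ℝ) : mm k α = ∫ μ in Ioi (0 : ℝ), Sk (π - α) k α μ := by
  unfold mm
  refine setIntegral_congr_fun measurableSet_Ioi fun μ _ => ?_
  simp only [Rf, Sk, mul_div_assoc]

theorem mm' : S_MM := by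
  intro α x h0 h1 hx
  have hpi := Real.pi_pos
  have hb : α < π - α := by linarith
  have hb0 : 0 < π - α := by linarith
  have ht : tn (π - α) α = Real.sin x / Real.cos x := by
    unfold tn
    rw [← Real.tan_eq_sin_div_cos, hx]
    congr 1
    ring
  have hc : Real.cos x ≠ 0 := by
    apply (Real.cos_pos_of_mem_Ioo ⟨?_, ?_⟩).ne'
    · have : 0 < x := by rw [hx]; positivity
      linarith
    · rw [hx, div_lt_div_iff₀ (by positivity) (by norm_num)]
      nlinarith
  have hs := Real.sin_sq_add_cos_sq x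
  have e2 : mm 2 α = (π / (π - α)) ^ 3 * Real.sin x / (4 * Real.cos x ^ 3) := by
    rw [mm_eq, M2 (π - α) α h0 hb, ht]
    have h3 : 2 * (Real.sin x / Real.cos x) + 2 * (Real.sin x / Real.cos x) ^ 3 =
        2 * Real.sin x / Real.cos x ^ 3 := by
      field_simp
      linear_combination (Real.sin x) * hs
    rw [h3]
    field_simp
    ring
  refine ⟨e2, ?_⟩
  rw [e2, mm_eq, M4 (π - α) α h0 hb, ht]
  have h3 : 16 * (Real.sin x / Real.cos x) + 40 * (Real.sin x / Real.cos x) ^ 3 +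
      24 * (Real.sin x / Real.cos x) ^ 5 =
      8 * Real.sin x * (3 - Real.cos x ^ 2) / Real.cos x ^ 5 := by
    field_simp
    have h4 : Real.sin x ^ 2 = 1 - Real.cos x ^ 2 := by linarith
    have h5 : Real.sin x ^ 4 = (1 - Real.cos x ^ 2) ^ 2 := by rw [← h4]; ring
    rw [h4, h5]
    ring
  rw [h3]
  field_simp
  ring

end Pool.Agent.N670.QD
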