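import Mathlib

/-!
# Reconstruction of the heights of a quadrilateral up to an exchange (elementary part)
-/

set_option autoImplicit false

namespace Pool.Agent.N670.QD

theorem rc0 (l s s' a b a' b' : ℝ) (_hl : 0 < l) (ha : 0 < a) (hb : 0 < b) (ha' : 0 < a')
    (hb' : 0 < b') (hs : s + s' < 0)
    (h1 : l * (a + b) - (s + s') * (a * b) = l * (a' + b') - (s + s') * (a' * b'))
    (h2 : a * √(1 + s ^ 2) + b * √(1 + s' ^ 2) + √((l - s' * b - s * a) ^ 2 + (b - a) ^ 2) =
      a' * √(1 + s ^ 2) + b' * √(1 + s' ^ 2) + √((l - s' * b' - s * a') ^ 2 + (b' - a') ^ 2)) :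
    (a = a' ∧ b = b') ∨
      ((a - l / (s + s')) * √(1 + s ^ 2) = (b' - l / (s + s')) * √(1 + s' ^ 2) ∧
        (b - l / (s + s')) * √(1 + s' ^ 2) = (a' - l / (s + s')) * √(1 + s ^ 2)) := by
  have hs0 : s + s' ≠ 0 := hs.ne
  obtain ⟨L, hL⟩ : ∃ L, L = l / (s + s') := ⟨_, rfl⟩
  have hLl : l = L * (s + s') := by rw [hL]; field_simp
  have hL0 : L < 0 := by rw [hL]; exact div_neg_of_pos_of_neg _hl hs
  rw [← hL]
  have hP : 0 < √(1 + s ^ 2) := Real.sqrt_pos.mpr (by positivity)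
  have hQ : 0 < √(1 + s' ^ 2) := Real.sqrt_pos.mpr (by positivity)
  have hP2 : √(1 + s ^ 2) ^ 2 = 1 + s ^ 2 := Real.sq_sqrt (by positivity)
  have hQ2 : √(1 + s' ^ 2) ^ 2 = 1 + s' ^ 2 := Real.sq_sqrt (by positivity)
  set P := √(1 + s ^ 2)
  set Q := √(1 + s' ^ 2)
  have hF : √((l - s' * b - s * a) ^ 2 + (b - a) ^ 2) ^ 2 =
      (l - s' * b - s * a) ^ 2 + (b - a) ^ 2 := Real.sq_sqrt (by positivity)
  have hF' : √((l - s' * b' - s * a') ^ 2 + (b' - a') ^ 2) ^ 2 =
      (l - s' * b' - s * a') ^ 2 + (b' - a') ^ 2 := Real.sq_sqrt (by positivity)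
  have hF0 : 0 ≤ √((l - s' * b - s * a) ^ 2 + (b - a) ^ 2) := Real.sqrt_nonneg _
  have hF0' : 0 ≤ √((l - s' * b' - s * a') ^ 2 + (b' - a') ^ 2) := Real.sqrt_nonneg _
  set f := √((l - s' * b - s * a) ^ 2 + (b - a) ^ 2)
  set f' := √((l - s' * b' - s * a') ^ 2 + (b' - a') ^ 2)
  have hxy : (a - L) * (b - L) = (a' - L) * (b' - L) := by
    have : (s + s') * ((a - L) * (b - L) - (a' - L) * (b' - L)) = 0 := by
      rw [hLl] at h1
      linear_combination -h1
    have := (mul_eq_zero.mp this).resolve_left hs0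
    linarith
  obtain ⟨A, hA⟩ : ∃ A, A = (a - L) * P := ⟨_, rfl⟩
  obtain ⟨B, hB⟩ : ∃ B, B = (b - L) * Q := ⟨_, rfl⟩
  obtain ⟨A', hA'⟩ : ∃ A', A' = (a' - L) * P := ⟨_, rfl⟩
  obtain ⟨B', hB'⟩ : ∃ B', B' = (b' - L) * Q := ⟨_, rfl⟩
  have hAB : A * B = A' * B' := by
    rw [hA, hB, hA', hB']
    linear_combination (P * Q) * hxy
  have hA0 : 0 < A := by rw [hA]; exact mul_pos (by linarith) hP
  have hB0 : 0 < B := by rw [hB]; exact mul_pos (by linarith) hQ
  have hA0' : 0 < A' := by rw [hA']; exact mul_pos (by linarith) hP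
  have hB0' : 0 < B' := by rw [hB']; exact mul_pos (by linarith) hQ
  have hsum : A + B + f = A' + B' + f' := by
    rw [hA, hB, hA', hB']
    linarith
  have hf2 : (A + B) ^ 2 - f ^ 2 = 2 * (A * B) + 2 * ((a - L) * (b - L)) * (1 - s * s') := by
    rw [hF, hA, hB, hLl]
    linear_combination (a - L) ^ 2 * hP2 + (b - L) ^ 2 * hQ2
  have hf2' : (A' + B') ^ 2 - f' ^ 2 =
      2 * (A' * B') + 2 * ((a' - L) * (b' - L)) * (1 - s * s') := by
    rw [hF', hA', hB', hLl]
    linear_combination (a' - L) ^ 2 * hP2 + (b' - L) ^ 2 * hQ2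
  have hd : (A + B) ^ 2 - f ^ 2 = (A' + B') ^ 2 - f' ^ 2 := by
    rw [hf2, hf2', hAB, hxy]
  have hT : A + B = A' + B' := by
    rcases lt_trichotomy (A + B) (A' + B') with h | h | h
    · exfalso
      have h3 : f' < f := by linarith
      have h4 : (A + B) ^ 2 < (A' + B') ^ 2 := pow_lt_pow_left₀ h (by linarith) two_ne_zero
      have h5 : f' ^ 2 ≤ f ^ 2 := pow_le_pow_left₀ hF0' h3.le 2
      linarith
    · exact h
    · exfalso
      have h3 : f < f' := by linarith
      have h4 : (A' + B') ^ 2 < (A + B) ^ 2 := pow_lt_pow_left₀ h (by linarith) two_ne_zero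
      have h5 : f ^ 2 ≤ f' ^ 2 := pow_le_pow_left₀ hF0 h3.le 2
      linarith
  have hfac : (A - A') * (A - B') = 0 := by
    have : B = A' + B' - A := by linarith
    rw [this] at hAB
    linear_combination -hAB
  rcases mul_eq_zero.mp hfac with h | h
  · left
    have e1 : A = A' := by linarith
    have e2 : B = B' := by linarith
    constructor
    · rw [hA, hA'] at e1
      have := mul_right_cancel₀ hP.ne' e1
      linarith
    · rw [hB, hB'] at e2
      have := mul_right_cancel₀ hQ.ne' e2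
      linarith
  · right
    have e1 : A = B' := by linarith
    have e2 : B = A' := by linarith
    exact ⟨by rw [← hA, ← hB']; exact e1, by rw [← hB, ← hA']; exact e2⟩

end Pool.Agent.N670.QD
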