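import Pool.Agent.N275.QD.Def
import Pool.Agent.N670.QD.RC0

/-!
# Reconstruction up to an exchange
-/

set_option autoImplicit false

namespace Pool.Agent.N670.QD

open Pool.Agent.N275.QD

theorem rc : S_RC := fun l s s' a b a' b' hl ha hb ha' hb' hs h1 h2 =>
  rc0 l s s' a b a' b' hl ha hb ha' hb' hs h1 h2

end Pool.Agent.N670.QD
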