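import Pool.Agent.N670.QD.Path

/-!
# Rooting loops at the extreme point
-/

set_option autoImplicit false

namespace Pool.Agent.N670.QD

open MeasureTheory Set Filter Topology
open Pool.Agent.N275.QD
open Pool.Agent.R225.LP (gk ks ip cons_meas lint_cons)
open Pool.Agent.R225.LP.FP (cyc)
open scoped Real ENNReal

/-- the loops with extreme point `W k` -/
def Ek (H A F : Set ℂ) (n : ℂ) (m : ℕ) (k : Fin (m + 1)) : Set (Fin (m + 1) → ℂ) :=
  {W | (∀ i, W i ∈ H) ∧ W k ∈ F ∧ (∀ i, i ≠ k → ip n (W i) < ip n (W k)) ∧ ∃ i, i ≠ k ∧ W i ∈ A}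

lemma ip_cont (n : ℂ) : Continuous (fun z => ip n z) := by
  unfold ip; fun_prop

lemma Ek_meas (H A F : Set ℂ) (hH : MeasurableSet H) (hA : MeasurableSet A)
    (hF : MeasurableSet F) (n : ℂ) (m : ℕ) (k : Fin (m + 1)) : MeasurableSet (Ek H A F n m k) := by
  have h : Ek H A F n m k = ({W | ∀ i, W i ∈ H} ∩ (fun W : Fin (m + 1) → ℂ => W k) ⁻¹' F) ∩
      ((⋂ i, {W : Fin (m + 1) → ℂ | i ≠ k → ip n (W i) < ip n (W k)}) ∩
      ⋃ i, {W : Fin (m + 1) → ℂ | i ≠ k ∧ W i ∈ A}) := by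
    ext W
    simp only [Ek, mem_ofPred_eq, mem_inter_iff, mem_preimage, mem_iInter, mem_iUnion]
    tauto
  rw [h]
  refine ((all_meas H hH).inter (measurable_pi_apply k hF)).inter
    ((MeasurableSet.iInter fun i => ?_).inter (MeasurableSet.iUnion fun i => ?_))
  · by_cases hi : i = k
    · simp [hi]
    · simp only [ne_eq, hi, not_false_eq_true, forall_const]
      exact measurableSet_lt ((ip_cont n).measurable.comp (measurable_pi_apply i))
        ((ip_cont n).measurable.comp (measurable_pi_apply k))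
  · by_cases hi : i = k
    · simp [hi]
    · simp only [ne_eq, hi, not_false_eq_true, true_and]
      exact measurable_pi_apply i hA

lemma cyc_meas (s : ℝ) (m : ℕ) : Measurable fun W : Fin (m + 1) → ℂ => ENNReal.ofReal (cyc s W) :=
  (Pool.Agent.R225.LP.FP.cyc_cont s).measurable.ennreal_ofReal

/-- the measure of the loops rooted at the extreme point -/
lemma E0_int (H A F : Set ℂ) (hH : MeasurableSet H) (hA : MeasurableSet A)
    (hF : MeasurableSet F) (n : ℂ) (s : ℝ) (hs : 0 < s) (m : ℕ) :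
    ∫⁻ W : Fin (m + 1) → ℂ, ENNReal.ofReal (cyc s W) * (Ek H A F n m 0).indicator 1 W =
      ∫⁻ b in F ∩ H, hk (H ∩ {z | ip n z < ip n b}) A s m b b := by
  have hm : Measurable fun W : Fin (m + 1) → ℂ =>
      ENNReal.ofReal (cyc s W) * (Ek H A F n m 0).indicator 1 W :=
    (cyc_meas s m).mul (measurable_one.indicator (Ek_meas H A F hH hA hF n m 0))
  rw [volume_pi, lint_cons m hm, ← lintegral_indicator (hF.inter hH)]
  refine lintegral_congr fun b => ?_
  rw [← volume_pi]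
  have hQ : MeasurableSet (H ∩ {z | ip n z < ip n b}) :=
    hH.inter (measurableSet_lt (ip_cont n).measurable measurable_const)
  have key : ∀ w : Fin m → ℂ, (Fin.cons b w : Fin (m + 1) → ℂ) ∈ Ek H A F n m 0 ↔
      b ∈ F ∩ H ∧ w ∈ {w : Fin m → ℂ | ∀ i, w i ∈ H ∩ {z | ip n z < ip n b}} ∩
        {w : Fin m → ℂ | ∃ i, w i ∈ A} := by
    intro w
    simp only [Ek, mem_ofPred_eq, Fin.forall_fin_succ, Fin.exists_fin_succ, Fin.cons_zero,
      Fin.cons_succ, mem_inter_iff, ne_eq, not_true_eq_false, false_and, false_or,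
      Fin.succ_ne_zero, not_false_eq_true, true_and, forall_true_left, IsEmpty.forall_iff]
    constructor
    · rintro ⟨⟨h1, h2⟩, h3, h4, h5⟩
      exact ⟨⟨h3, h1⟩, fun i => ⟨h2 i, h4 i⟩, h5⟩
    · rintro ⟨⟨h3, h1⟩, h2, h5⟩
      exact ⟨⟨h1, fun i => (h2 i).1⟩, h3, fun i => (h2 i).2, h5⟩
  by_cases hb : b ∈ F ∩ H
  · rw [indicator_of_mem hb, hk_path _ _ hQ hA]
    refine lintegral_congr fun w => ?_
    rw [cyc_cons s hs]
    by_cases hw : w ∈ {w : Fin m → ℂ | ∀ i, w i ∈ H ∩ {z | ip n z < ip n b}} ∩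
        {w : Fin m → ℂ | ∃ i, w i ∈ A}
    · rw [indicator_of_mem hw, indicator_of_mem ((key w).mpr ⟨hb, hw⟩), Pi.one_apply, mul_one]
    · rw [indicator_of_notMem hw, indicator_of_notMem (fun h => hw ((key w).mp h).2), mul_zero]
  · rw [indicator_of_notMem hb]
    have h0 : ∀ w : Fin m → ℂ, ENNReal.ofReal (cyc s (Fin.cons b w : Fin (m + 1) → ℂ)) *
        (Ek H A F n m 0).indicator 1 (Fin.cons b w : Fin (m + 1) → ℂ) = 0 := fun w => by
      rw [indicator_of_notMem (fun h => hb ((key w).mp h).1), mul_zero]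
    simp_rw [h0]
    simp

/-- the shift -/
lemma Ek_int (H A F : Set ℂ) (n : ℂ) (s : ℝ) (m : ℕ) (k : Fin (m + 1)) :
    ∫⁻ W : Fin (m + 1) → ℂ, ENNReal.ofReal (cyc s W) * (Ek H A F n m k).indicator 1 W =
      ∫⁻ W : Fin (m + 1) → ℂ, ENNReal.ofReal (cyc s W) * (Ek H A F n m 0).indicator 1 W := by
  have hmp := volume_measurePreserving_piCongrLeft (fun _ : Fin (m + 1) => ℂ)
    (Equiv.addRight (-k) : Fin (m + 1) ≃ Fin (m + 1))
  have h := hmp.lintegral_comp_emb (MeasurableEquiv.measurableEmbedding _)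
    (fun W => ENNReal.ofReal (cyc s W) * (Ek H A F n m 0).indicator 1 W)
  rw [← h]
  refine lintegral_congr fun W => ?_
  have hW : ∀ i, (MeasurableEquiv.piCongrLeft (fun _ : Fin (m + 1) => ℂ)
      (Equiv.addRight (-k) : Fin (m + 1) ≃ Fin (m + 1))) W i = W (i + k) := by
    intro i
    have := Equiv.piCongrLeft_apply_apply (fun _ : Fin (m + 1) => ℂ)
      (Equiv.addRight (-k) : Fin (m + 1) ≃ Fin (m + 1)) W (i + k)
    have e : (Equiv.addRight (-k) : Fin (m + 1) ≃ Fin (m + 1)) (i + k) = i := by simp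
    rw [e] at this
    exact this
  set V := (MeasurableEquiv.piCongrLeft (fun _ : Fin (m + 1) => ℂ)
      (Equiv.addRight (-k) : Fin (m + 1) ≃ Fin (m + 1))) W with hV
  have h1 : cyc s V = cyc s W := by
    unfold cyc
    simp_rw [hW]
    refine Fintype.prod_equiv (Equiv.addRight k) _ _ fun i => ?_
    simp only [Equiv.coe_addRight]
    congr 2
    · congr 1
      abel
  have h2 : V ∈ Ek H A F n m 0 ↔ W ∈ Ek H A F n m k := by
    simp only [Ek, mem_ofPred_eq, hW, zero_add]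
    constructor
    · rintro ⟨a1, a2, a3, i, hi, a4⟩
      refine ⟨fun i => by simpa using a1 (i - k), a2, fun i hi => ?_, i + k, ?_, a4⟩
      · simpa using a3 (i - k) (sub_ne_zero.mpr hi)
      · intro h; exact hi (by simpa using h)
    · rintro ⟨a1, a2, a3, i, hi, a4⟩
      refine ⟨fun i => a1 _, a2, fun i hi => a3 _ ?_, i - k, sub_ne_zero.mpr hi, by simpa using a4⟩
      intro h; exact hi (by simpa using h)
  rw [h1]
  congr 1
  by_cases hw : W ∈ Ek H A F n m k
  · rw [indicator_of_mem hw, indicator_of_mem (h2.mpr hw)]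
    rfl
  · rw [indicator_of_notMem hw, indicator_of_notMem (fun h => hw (h2.mp h))]

theorem rt : S_RT := by
  intro H A F n s m hH hA hF _ hs
  have h1 : ∀ W : Fin (m + 1) → ℂ,
      {W : Fin (m + 1) → ℂ | (∀ i, W i ∈ H) ∧ ∃ k, W k ∈ F ∧
        (∀ i, i ≠ k → ip n (W i) < ip n (W k)) ∧ ∃ i, i ≠ k ∧ W i ∈ A}.indicator
        (1 : (Fin (m + 1) → ℂ) → ℝ≥0∞) W =
      ∑ k, (Ek H A F n m k).indicator (1 : (Fin (m + 1) → ℂ) → ℝ≥0∞) W := by
    intro W
    by_cases hW : ∃ k, W ∈ Ek H A F n m k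
    · obtain ⟨k, hk⟩ := hW
      rw [indicator_of_mem (show W ∈ {W : Fin (m + 1) → ℂ | (∀ i, W i ∈ H) ∧ ∃ k, W k ∈ F ∧
        (∀ i, i ≠ k → ip n (W i) < ip n (W k)) ∧ ∃ i, i ≠ k ∧ W i ∈ A} from
          ⟨hk.1, k, hk.2.1, hk.2.2.1, hk.2.2.2⟩)]
      rw [Finset.sum_eq_single k, indicator_of_mem hk]
      · intro j _ hj
        refine indicator_of_notMem (fun h => ?_) _
        have e1 := h.2.2.1 k (Ne.symm hj)
        have e2 := hk.2.2.1 j hj
        exact lt_asymm e1 e2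
      · intro h; exact (h (Finset.mem_univ _)).elim
    · rw [indicator_of_notMem, Finset.sum_eq_zero]
      · intro k _
        exact indicator_of_notMem (fun h => hW ⟨k, h⟩) _
      · rintro ⟨a1, k, a2, a3, a4⟩
        exact hW ⟨k, a1, a2, a3, a4⟩
  have h2 : ∀ W : Fin (m + 1) → ℂ, ENNReal.ofReal (cyc s W) *
      {W : Fin (m + 1) → ℂ | (∀ i, W i ∈ H) ∧ ∃ k, W k ∈ F ∧
        (∀ i, i ≠ k → ip n (W i) < ip n (W k)) ∧ ∃ i, i ≠ k ∧ W i ∈ A}.indicator
        (1 : (Fin (m + 1) → ℂ) → ℝ≥0∞) W =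
      ∑ k, ENNReal.ofReal (cyc s W) * (Ek H A F n m k).indicator 1 W := by
    intro W
    rw [h1, Finset.mul_sum]
  have h3 : ∀ k ∈ (Finset.univ : Finset (Fin (m + 1))), Measurable fun W : Fin (m + 1) → ℂ =>
      ENNReal.ofReal (cyc s W) * (Ek H A F n m k).indicator 1 W := fun k _ =>
    (cyc_meas s m).mul (measurable_one.indicator (Ek_meas H A F hH hA hF n m k))
  rw [lintegral_congr h2, lintegral_finsetSum _ h3]
  simp_rw [Ek_int H A F n s m]
  rw [Finset.sum_const, Finset.card_univ, Fintype.card_fin, E0_int H A F hH hA hF n s hs m,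
    nsmul_eq_mul]
  rfl

end Pool.Agent.N670.QD
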