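import Pool.Agent.N275.QD.Def

/-!
# The chain in a strip factorises
-/

set_option autoImplicit false

namespace Pool.Agent.N670.QD

open MeasureTheory Set Filter Topology
open Pool.Agent.N275.QD
open Pool.Agent.R225.LP (gk ks)
open scoped Real ENNReal

lemma g1_nonneg (s y : ℝ) : 0 ≤ g1 s y := by unfold g1; positivity

lemma g1_cont (s : ℝ) : Continuous (g1 s) := by
  unfold g1
  fun_prop

lemma gk_eq (s : ℝ) (hs : 0 < s) (z : ℂ) : gk s z = g1 s z.re * g1 s z.im := by
  unfold gk g1
  have h1 : ‖z‖ ^ 2 = z.re ^ 2 + z.im ^ 2 := by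
    rw [Complex.sq_norm, Complex.normSq_apply]; ring
  have h2 : √(4 * π * s) * √(4 * π * s) = 4 * π * s := Real.mul_self_sqrt (by positivity)
  rw [h1, div_mul_div_comm, h2, ← Real.exp_add]
  congr 2
  ring

/-- The convolution of two Gaussians. -/
lemma g1_conv (s t a b : ℝ) (hs : 0 < s) (ht : 0 < t) :
    ∫⁻ y : ℝ, ENNReal.ofReal (g1 s (y - a)) * ENNReal.ofReal (g1 t (b - y)) =
      ENNReal.ofReal (g1 (s + t) (b - a)) := by
  set c := (s + t) / (4 * s * t) with hc
  set d := (t * a + s * b) / (s + t) with hd
  have hc0 : 0 < c := by rw [hc]; positivity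
  have h1 : ∀ y : ℝ, ENNReal.ofReal (g1 s (y - a)) * ENNReal.ofReal (g1 t (b - y)) =
      ENNReal.ofReal (Real.exp (-((b - a) ^ 2 / (4 * (s + t)))) / (√(4 * π * s) * √(4 * π * t)) *
        Real.exp (-c * (y - d) ^ 2)) := by
    intro y
    rw [← ENNReal.ofReal_mul (g1_nonneg _ _)]
    congr 1
    unfold g1
    rw [div_mul_div_comm, ← Real.exp_add, div_mul_eq_mul_div, ← Real.exp_add]
    congr 2
    rw [hc, hd]
    field_simp
    ring
  simp_rw [h1]
  have hint : Integrable (fun y : ℝ => Real.exp (-c * (y - d) ^ 2)) :=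
    (integrable_exp_neg_mul_sq hc0).comp_sub_right d
  rw [← ofReal_integral_eq_lintegral_ofReal (hint.const_mul _)
    (Eventually.of_forall fun y => by positivity)]
  congr 1
  rw [integral_const_mul, integral_sub_right_eq_self (fun y : ℝ => Real.exp (-c * y ^ 2)) d,
    integral_gaussian]
  unfold g1
  rw [div_mul_eq_mul_div, div_eq_div_iff (by positivity) (by positivity), mul_assoc]
  congr 1
  rw [← Real.sqrt_mul (by positivity), ← Real.sqrt_mul (by positivity)]
  congr 1
  rw [hc]
  field_simp

lemma k1_meas (I : Set ℝ) (s : ℝ) (m : ℕ) (b : ℝ) : Measurable fun x => k1 I s m x b := by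
  induction m with
  | zero =>
    unfold k1
    exact ENNReal.measurable_ofReal.comp ((g1_cont s).measurable.comp (by fun_prop))
  | succ m ih =>
    unfold k1
    refine Measurable.lintegral_prod_right' (f := fun p : ℝ × ℝ =>
      ENNReal.ofReal (g1 s (p.2 - p.1)) * k1 I s m p.2 b) ?_
    exact (ENNReal.measurable_ofReal.comp ((g1_cont s).measurable.comp
      (by fun_prop))).mul (ih.comp measurable_snd)

theorem ft : S_FT := by
  intro I s m a b hI hs
  induction m generalizing a with
  | zero =>
    simp only [ks, k1]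
    rw [gk_eq s hs, ENNReal.ofReal_mul (g1_nonneg _ _)]
    simp
  | succ m ih =>
    simp only [ks, k1]
    have hset : MeasurableSet {z : ℂ | z.re ∈ I} := Complex.measurable_re hI
    rw [← lintegral_indicator hset, ← lintegral_indicator hI]
    have h1 : ∀ z : ℂ, {z : ℂ | z.re ∈ I}.indicator
        (fun z => ENNReal.ofReal (gk s (z - a)) * ks {z | z.re ∈ I} s m z b) z =
        (I.indicator (fun x => ENNReal.ofReal (g1 s (x - a.re)) * k1 I s m x b.re) z.re) *
          (ENNReal.ofReal (g1 s (z.im - a.im)) *
            ENNReal.ofReal (g1 ((m + 1) * s) (b.im - z.im))) := by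
      intro z
      by_cases hz : z.re ∈ I
      · rw [indicator_of_mem (show z ∈ {z : ℂ | z.re ∈ I} from hz), indicator_of_mem hz, ih,
          gk_eq s hs, ENNReal.ofReal_mul (g1_nonneg _ _)]
        simp only [Complex.sub_re, Complex.sub_im]
        ring
      · rw [indicator_of_notMem (show z ∉ {z : ℂ | z.re ∈ I} from hz), indicator_of_notMem hz,
          zero_mul]
    rw [lintegral_congr h1]
    have h2 := (Complex.volume_preserving_equiv_real_prod).lintegral_comp_emb
      Complex.measurableEquivRealProd.measurableEmbedding (fun p : ℝ × ℝ =>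
        (I.indicator (fun x => ENNReal.ofReal (g1 s (x - a.re)) * k1 I s m x b.re) p.1) *
          (ENNReal.ofReal (g1 s (p.2 - a.im)) *
            ENNReal.ofReal (g1 ((m + 1) * s) (b.im - p.2))))
    refine h2.trans ?_
    have hm1 : Measurable fun x : ℝ => I.indicator
        (fun x => ENNReal.ofReal (g1 s (x - a.re)) * k1 I s m x b.re) x :=
      ((ENNReal.measurable_ofReal.comp ((g1_cont s).measurable.comp (by fun_prop))).mul
        (k1_meas I s m b.re)).indicator hI
    have hm2 : Measurable fun y : ℝ => ENNReal.ofReal (g1 s (y - a.im)) *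
            ENNReal.ofReal (g1 ((m + 1) * s) (b.im - y)) :=
      (ENNReal.measurable_ofReal.comp ((g1_cont s).measurable.comp (by fun_prop))).mul
        (ENNReal.measurable_ofReal.comp ((g1_cont _).measurable.comp (by fun_prop)))
    rw [Measure.volume_eq_prod, lintegral_prod_mul hm1.aemeasurable hm2.aemeasurable,
      g1_conv s ((m + 1) * s) a.im b.im hs (by positivity)]
    congr 3
    push_cast
    ring

end Pool.Agent.N670.QD
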