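import Pool.Agent.N275.QD.Def

/-!
# Path integrals
-/

set_option autoImplicit false

namespace Pool.Agent.N670.QD

open MeasureTheory Set Filter Topology
open Pool.Agent.N275.QD
open Pool.Agent.R225.LP (gk ks ip cons_meas lint_cons)
open Pool.Agent.R225.LP.FP (cyc)
open scoped Real ENNReal

lemma gkc (s : ℝ) : Continuous (gk s) := by
  unfold gk; fun_prop

/-- The product of the kernels along a path. -/
noncomputable def pp (s : ℝ) : (m : ℕ) → ℂ → ℂ → (Fin m → ℂ) → ℝ≥0∞
  | 0, a, b, _ => ENNReal.ofReal (gk s (b - a))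
  | n + 1, a, b, w => ENNReal.ofReal (gk s (w 0 - a)) * pp s n (w 0) b (Fin.tail w)

lemma pp_cons (s : ℝ) (n : ℕ) (a b z : ℂ) (w : Fin n → ℂ) :
    pp s (n + 1) a b (Fin.cons z w : Fin (n + 1) → ℂ) =
      ENNReal.ofReal (gk s (z - a)) * pp s n z b w := by
  simp only [pp, Fin.cons_zero, Fin.tail_cons]

lemma pp_meas (s : ℝ) (m : ℕ) (b : ℂ) :
    Measurable fun q : ℂ × (Fin m → ℂ) => pp s m q.1 b q.2 := by
  induction m with
  | zero =>
    unfold pp
    exact ENNReal.measurable_ofReal.comp ((gkc s).measurable.comp (by fun_prop))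
  | succ n ih =>
    unfold pp
    refine Measurable.mul ?_ ?_
    · exact ENNReal.measurable_ofReal.comp ((gkc s).measurable.comp (by fun_prop))
    · have h : Measurable fun q : ℂ × (Fin (n + 1) → ℂ) => (q.2 0, Fin.tail q.2) := by
        refine Measurable.prodMk (by fun_prop) ?_
        unfold Fin.tail
        fun_prop
      exact ih.comp h

lemma pp_meas' (s : ℝ) (m : ℕ) (a b : ℂ) : Measurable fun w : Fin m → ℂ => pp s m a b w :=
  (pp_meas s m b).comp measurable_prodMk_left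

lemma all_meas {m : ℕ} (Q : Set ℂ) (hQ : MeasurableSet Q) :
    MeasurableSet {w : Fin m → ℂ | ∀ i, w i ∈ Q} := by
  have : {w : Fin m → ℂ | ∀ i, w i ∈ Q} = ⋂ i, (fun w : Fin m → ℂ => w i) ⁻¹' Q := by
    ext w; simp
  rw [this]
  exact MeasurableSet.iInter fun i => measurable_pi_apply i hQ

lemma ex_meas {m : ℕ} (A : Set ℂ) (hA : MeasurableSet A) :
    MeasurableSet {w : Fin m → ℂ | ∃ i, w i ∈ A} := by
  have : {w : Fin m → ℂ | ∃ i, w i ∈ A} = ⋃ i, (fun w : Fin m → ℂ => w i) ⁻¹' A := by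
    ext w; simp
  rw [this]
  exact MeasurableSet.iUnion fun i => measurable_pi_apply i hA

lemma cons_all {n : ℕ} (Q : Set ℂ) (z : ℂ) (w : Fin n → ℂ) :
    (Fin.cons z w : Fin (n + 1) → ℂ) ∈ {w : Fin (n + 1) → ℂ | ∀ i, w i ∈ Q} ↔
      z ∈ Q ∧ w ∈ {w : Fin n → ℂ | ∀ i, w i ∈ Q} := by
  simp [Fin.forall_fin_succ]

lemma cons_ex {n : ℕ} (A : Set ℂ) (z : ℂ) (w : Fin n → ℂ) :
    (Fin.cons z w : Fin (n + 1) → ℂ) ∈ {w : Fin (n + 1) → ℂ | ∃ i, w i ∈ A} ↔
      z ∈ A ∨ w ∈ {w : Fin n → ℂ | ∃ i, w i ∈ A} := by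
  simp [Fin.exists_fin_succ]

/-- The kernel of the killed chain as a path integral. -/
lemma ks_path (Q : Set ℂ) (hQ : MeasurableSet Q) (s : ℝ) (m : ℕ) (a b : ℂ) :
    ks Q s m a b = ∫⁻ w : Fin m → ℂ, {w : Fin m → ℂ | ∀ i, w i ∈ Q}.indicator (pp s m a b) w := by
  induction m generalizing a with
  | zero =>
    have h : {w : Fin 0 → ℂ | ∀ i, w i ∈ Q} = univ := by ext w; simp
    rw [h, indicator_univ]
    simp [ks, pp, volume_pi]
  | succ n ih =>
    simp only [ks]
    have hm : Measurable ({w : Fin (n + 1) → ℂ | ∀ i, w i ∈ Q}.indicator (pp s (n + 1) a b)) :=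
      (pp_meas' s (n + 1) a b).indicator (all_meas Q hQ)
    rw [volume_pi, lint_cons n hm, ← lintegral_indicator hQ]
    refine lintegral_congr fun z => ?_
    rw [← volume_pi]
    by_cases hz : z ∈ Q
    · rw [indicator_of_mem hz, ih, ← lintegral_const_mul _ ((pp_meas' s n z b).indicator
        (all_meas Q hQ))]
      refine lintegral_congr fun w => ?_
      by_cases hw : w ∈ {w : Fin n → ℂ | ∀ i, w i ∈ Q}
      · rw [indicator_of_mem hw, indicator_of_mem ((cons_all Q z w).mpr ⟨hz, hw⟩), pp_cons]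
      · rw [indicator_of_notMem hw,
          indicator_of_notMem (fun h => hw ((cons_all Q z w).mp h).2), mul_zero]
    · rw [indicator_of_notMem hz]
      have h0 : ∀ w : Fin n → ℂ, {w : Fin (n + 1) → ℂ | ∀ i, w i ∈ Q}.indicator
          (pp s (n + 1) a b) (Fin.cons z w) = 0 := fun w =>
        indicator_of_notMem (fun h => hz ((cons_all Q z w).mp h).1) _
      simp_rw [h0]
      simp

lemma ks_meas (Q : Set ℂ) (hQ : MeasurableSet Q) (s : ℝ) (n : ℕ) (b : ℂ) :
    Measurable fun z => ks Q s n z b := by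
  have : (fun z => ks Q s n z b) = fun z => ∫⁻ w : Fin n → ℂ,
      {w : Fin n → ℂ | ∀ i, w i ∈ Q}.indicator (pp s n z b) w := by
    funext z; exact ks_path Q hQ s n z b
  rw [this]
  have h2 : Measurable fun q : ℂ × (Fin n → ℂ) =>
      {w : Fin n → ℂ | ∀ i, w i ∈ Q}.indicator (pp s n q.1 b) q.2 := by
    have h3 : (fun q : ℂ × (Fin n → ℂ) =>
        {w : Fin n → ℂ | ∀ i, w i ∈ Q}.indicator (pp s n q.1 b) q.2) =
        (Prod.snd ⁻¹' {w : Fin n → ℂ | ∀ i, w i ∈ Q}).indicator
          (fun q : ℂ × (Fin n → ℂ) => pp s n q.1 b q.2) := by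
      funext q
      by_cases hq : q.2 ∈ {w : Fin n → ℂ | ∀ i, w i ∈ Q}
      · rw [indicator_of_mem hq,
          indicator_of_mem (show q ∈ Prod.snd ⁻¹' {w : Fin n → ℂ | ∀ i, w i ∈ Q} from hq)]
      · rw [indicator_of_notMem hq,
          indicator_of_notMem (show q ∉ Prod.snd ⁻¹' {w : Fin n → ℂ | ∀ i, w i ∈ Q} from hq)]
    rw [h3]
    exact (pp_meas s n b).indicator (measurable_snd (all_meas Q hQ))
  exact h2.lintegral_prod_right'

/-- The kernel of the chain which visits `A` as a path integral. -/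
lemma hk_path (Q A : Set ℂ) (hQ : MeasurableSet Q) (hA : MeasurableSet A) (s : ℝ) (m : ℕ)
    (a b : ℂ) :
    hk Q A s m a b = ∫⁻ w : Fin m → ℂ,
      ({w : Fin m → ℂ | ∀ i, w i ∈ Q} ∩ {w : Fin m → ℂ | ∃ i, w i ∈ A}).indicator
        (pp s m a b) w := by
  induction m generalizing a with
  | zero =>
    have h : {w : Fin 0 → ℂ | ∀ i, w i ∈ Q} ∩ {w : Fin 0 → ℂ | ∃ i, w i ∈ A} = ∅ := by
      ext w; simp
    rw [h]
    simp [hk]
  | succ n ih =>
    simp only [hk]
    have hS := (all_meas (m := n + 1) Q hQ).inter (ex_meas A hA)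
    have hm : Measurable (({w : Fin (n + 1) → ℂ | ∀ i, w i ∈ Q} ∩
        {w : Fin (n + 1) → ℂ | ∃ i, w i ∈ A}).indicator (pp s (n + 1) a b)) :=
      (pp_meas' s (n + 1) a b).indicator hS
    have hg : Measurable fun z : ℂ => ENNReal.ofReal (gk s (z - a)) :=
      ENNReal.measurable_ofReal.comp ((gkc s).measurable.comp (by fun_prop))
    have hg2 : Measurable fun z : ℂ => ENNReal.ofReal (gk s (z - a)) * ks Q s n z b :=
      hg.mul (ks_meas Q hQ s n b)
    rw [volume_pi, lint_cons n hm, ← lintegral_indicator (hQ.inter hA),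
      ← lintegral_indicator (hQ.diff hA), ← lintegral_add_left (hg2.indicator (hQ.inter hA))]
    refine lintegral_congr fun z => ?_
    rw [← volume_pi]
    by_cases hz : z ∈ Q
    · by_cases hzA : z ∈ A
      · rw [indicator_of_mem (show z ∈ Q ∩ A from ⟨hz, hzA⟩),
          indicator_of_notMem (show z ∉ Q \ A from fun h => h.2 hzA), add_zero,
          ks_path Q hQ, ← lintegral_const_mul _ ((pp_meas' s n z b).indicator
          (all_meas Q hQ))]
        refine lintegral_congr fun w => ?_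
        by_cases hw : w ∈ {w : Fin n → ℂ | ∀ i, w i ∈ Q}
        · rw [indicator_of_mem hw, indicator_of_mem (mem_inter ((cons_all Q z w).mpr ⟨hz, hw⟩)
            ((cons_ex A z w).mpr (Or.inl hzA))), pp_cons]
        · rw [indicator_of_notMem hw,
            indicator_of_notMem (fun h => hw ((cons_all Q z w).mp h.1).2), mul_zero]
      · rw [indicator_of_notMem (show z ∉ Q ∩ A from fun h => hzA h.2),
          indicator_of_mem (show z ∈ Q \ A from ⟨hz, hzA⟩), zero_add, ih,
          ← lintegral_const_mul _ ((pp_meas' s n z b).indicator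
          ((all_meas Q hQ).inter (ex_meas A hA)))]
        refine lintegral_congr fun w => ?_
        by_cases hw : w ∈ {w : Fin n → ℂ | ∀ i, w i ∈ Q} ∩ {w : Fin n → ℂ | ∃ i, w i ∈ A}
        · rw [indicator_of_mem hw, indicator_of_mem (mem_inter ((cons_all Q z w).mpr
            ⟨hz, hw.1⟩) ((cons_ex A z w).mpr (Or.inr hw.2))), pp_cons]
        · rw [indicator_of_notMem hw, indicator_of_notMem (fun h =>
            hw ⟨((cons_all Q z w).mp h.1).2, (((cons_ex A z w).mp h.2).resolve_left hzA)⟩),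
            mul_zero]
    · rw [indicator_of_notMem (show z ∉ Q ∩ A from fun h => hz h.1),
        indicator_of_notMem (show z ∉ Q \ A from fun h => hz h.1), add_zero]
      have h0 : ∀ w : Fin n → ℂ, ({w : Fin (n + 1) → ℂ | ∀ i, w i ∈ Q} ∩
          {w : Fin (n + 1) → ℂ | ∃ i, w i ∈ A}).indicator
          (pp s (n + 1) a b) (Fin.cons z w) = 0 := fun w =>
        indicator_of_notMem (fun h => hz ((cons_all Q z w).mp h.1).1) _
      simp_rw [h0]
      simp

/-- The product along a path, explicitly. -/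
lemma pp_eq (s : ℝ) (m : ℕ) (a b : ℂ) (w : Fin m → ℂ) :
    pp s m a b w = (∏ i : Fin m, ENNReal.ofReal (gk s (w i -
      (Fin.cons a w : Fin (m + 1) → ℂ) i.castSucc))) *
      ENNReal.ofReal (gk s (b - (Fin.cons a w : Fin (m + 1) → ℂ) (Fin.last m))) := by
  induction m generalizing a with
  | zero => simp [pp]
  | succ n ih =>
    have h1 : pp s (n + 1) a b w = ENNReal.ofReal (gk s (w 0 - a)) * pp s n (w 0) b (Fin.tail w) := rfl
    rw [h1, ih, Fin.prod_univ_succ]
    have h2 : (Fin.cons (w 0) (Fin.tail w) : Fin (n + 1) → ℂ) = w := Fin.cons_self_tail w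
    rw [h2]
    have h3 : (Fin.cons a w : Fin (n + 1 + 1) → ℂ) (Fin.last (n + 1)) = w (Fin.last n) := by
      rw [← Fin.succ_last, Fin.cons_succ]
    rw [h3, mul_assoc]
    congr 1

/-- Cyclic chains and paths. -/
lemma cyc_cons (s : ℝ) (hs : 0 < s) (m : ℕ) (b : ℂ) (w : Fin m → ℂ) :
    ENNReal.ofReal (cyc s (Fin.cons b w : Fin (m + 1) → ℂ)) = pp s m b b w := by
  rw [pp_eq, cyc, ENNReal.ofReal_prod_of_nonneg fun i _ => by unfold gk; positivity,
    Fin.prod_univ_castSucc]
  congr 1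
  · refine Finset.prod_congr rfl fun i _ => ?_
    rw [Fin.coeSucc_eq_succ, Fin.cons_succ]
  · rw [Fin.last_add_one, Fin.cons_zero]

end Pool.Agent.N670.QD
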